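import Pool.Agent.R722.LP.Stm

/-! Piece LP-ADD (helper381): additivity, null sets and the full set for `F_W`. -/

set_option autoImplicit false

namespace Pool.Agent.R722.LP

open MeasureTheory Pool.Agent.R514.SP
open scoped ENNReal NNReal

namespace ADDx

instance instSF : SigmaFinite mu := by
  unfold mu
  infer_instance

/-- torus number `0` -/
def A0 : Set Om := {ω | ω.2 = 0}

lemma A0_eq : A0 = (Set.univ : Set TT) ×ˢ ({0} : Set ℕ) := by
  ext ω
  simp [A0]

lemma A0_meas : MeasurableSet A0 := by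
  rw [A0_eq]
  exact MeasurableSet.univ.prod (measurableSet_singleton 0)

lemma mu_A0 : mu A0 = 1 := by
  rw [A0_eq, mu, Measure.prod_prod, Measure.count_singleton, mul_one, Measure.volume_eq_prod,
    ← Set.univ_prod_univ, Measure.prod_prod, UnitAddCircle.measure_univ, mul_one]

instance instPr : IsProbabilityMeasure (mu.restrict A0) :=
  ⟨by rw [Measure.restrict_apply_univ, mu_A0]⟩

variable {p : ℝ≥0∞} [hp1 : Fact (1 ≤ p)]

lemma p_ne : p ≠ 0 := (zero_lt_one.trans_le hp1.out).ne'

lemma r_pos (hp : p ≠ ∞) : 0 < p.toReal := ENNReal.toReal_pos p_ne hp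

/-- the first factor -/
noncomputable def hh (x : Lp ℝ p mu) : Om → ℝ := A0.indicator (x : Om → ℝ)

/-- the second factor -/
noncomputable def gg (x : Lp ℝ p mu) : Om → ℝ := fun ω => |(x : Om → ℝ) ω| ^ p.toReal

lemma hh_int (x : Lp ℝ p mu) : Integrable (hh x) mu := by
  unfold hh
  rw [integrable_indicator_iff A0_meas]
  exact ((Lp.memLp x).restrict A0).integrable hp1.out

lemma gg_int (hp : p ≠ ∞) (x : Lp ℝ p mu) : Integrable (gg x) mu := by
  have h := (Lp.memLp x).integrable_norm_rpow p_ne hp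
  exact h

lemma gg_eq (hp : p ≠ ∞) (x : Lp ℝ p mu) : ∫ ω, gg x ω ∂mu = ‖x‖ ^ p.toReal := by
  have h0 : 0 ≤ ∫ ω, ‖(x : Om → ℝ) ω‖ ^ p.toReal ∂mu := integral_nonneg fun ω => by positivity
  rw [Lp.norm_def, MemLp.eLpNorm_eq_integral_rpow_norm p_ne hp (Lp.memLp x),
    ENNReal.toReal_ofReal (by positivity), ← Real.rpow_mul h0,
    inv_mul_cancel₀ (r_pos hp).ne', Real.rpow_one]
  rfl

lemma FW_eq (hp : p ≠ ∞) {W : Set (Om × Om)} (hW : Adm W) (x : Lp ℝ p mu) :
    FW p W x = (∫ q in W, hh x q.1 * gg x q.2 ∂(mu.prod mu)) / ‖x‖ ^ p.toReal := by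
  unfold FW
  congr 1
  rw [← integral_indicator hW.1, integral_prod]
  · refine integral_congr_ae (ae_of_all _ fun ω => ?_)
    refine integral_congr_ae (ae_of_all _ fun ω' => ?_)
    by_cases h : (ω, ω') ∈ W
    · simp only
      rw [Set.indicator_of_mem h, Set.indicator_of_mem h]
      have hm : ω ∈ A0 := hW.2 _ h
      have h1 : hh x ω = (x : Om → ℝ) ω := Set.indicator_of_mem hm _
      rw [h1]
      rfl
    · simp only
      rw [Set.indicator_of_notMem h, Set.indicator_of_notMem h]
  · exact ((hh_int x).mul_prod (gg_int hp x)).indicator hW.1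

lemma phi_bound (x : Lp ℝ p mu) : ‖∫ ω, hh x ω ∂mu‖ ≤ 1 * ‖x‖ := by
  unfold hh
  rw [integral_indicator A0_meas, one_mul]
  refine (norm_integral_le_integral_norm _).trans ?_
  have hm : AEStronglyMeasurable (x : Om → ℝ) (mu.restrict A0) :=
    (Lp.aestronglyMeasurable x).restrict
  rw [integral_norm_eq_lintegral_enorm hm, Lp.norm_def]
  refine ENNReal.toReal_mono (Lp.eLpNorm_ne_top x) ?_
  rw [← eLpNorm_one_eq_lintegral_enorm]
  exact (eLpNorm_le_eLpNorm_of_exponent_le hp1.out hm).trans (eLpNorm_restrict_le _ _ _ _)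

/-- the functional `x ↦ ∫ x` over torus number `0` -/
noncomputable def phi : Lp ℝ p mu →L[ℝ] ℝ :=
  LinearMap.mkContinuous
    { toFun := fun x => ∫ ω, hh x ω ∂mu
      map_add' := by
        intro x y
        rw [← integral_add (hh_int x) (hh_int y)]
        refine integral_congr_ae ?_
        filter_upwards [Lp.coeFn_add x y] with ω hω
        unfold hh
        by_cases h : ω ∈ A0
        · rw [Set.indicator_of_mem h, Set.indicator_of_mem h, Set.indicator_of_mem h, hω]
          rfl
        · rw [Set.indicator_of_notMem h, Set.indicator_of_notMem h, Set.indicator_of_notMem h,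
            add_zero]
      map_smul' := by
        intro c x
        rw [RingHom.id_apply, ← integral_smul]
        refine integral_congr_ae ?_
        filter_upwards [Lp.coeFn_smul c x] with ω hω
        unfold hh
        by_cases h : ω ∈ A0
        · rw [Set.indicator_of_mem h, Set.indicator_of_mem h, hω]
          rfl
        · rw [Set.indicator_of_notMem h, Set.indicator_of_notMem h, smul_zero] }
    1 phi_bound

lemma phi_apply (x : Lp ℝ p mu) : phi x = ∫ ω, hh x ω ∂mu := rfl

lemma adm0 : Adm {q : Om × Om | q.1.2 = 0} :=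
  ⟨measurable_fst A0_meas, fun _ hq => hq⟩

lemma FW_full (hp : p ≠ ∞) (x : Lp ℝ p mu) : FW p {q | q.1.2 = 0} x = phi x := by
  rw [FW_eq hp adm0, phi_apply]
  have h1 : ∫ q in {q : Om × Om | q.1.2 = 0}, hh x q.1 * gg x q.2 ∂(mu.prod mu) =
      ∫ q, hh x q.1 * gg x q.2 ∂(mu.prod mu) := by
    refine setIntegral_eq_integral_of_forall_compl_eq_zero fun q hq => ?_
    have hn : q.1 ∉ A0 := hq
    have h2 : hh x q.1 = 0 := Set.indicator_of_notMem hn _
    rw [h2, zero_mul]
  rw [h1, integral_prod_mul, gg_eq hp]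
  by_cases hx : x = 0
  · have h3 : ‖x‖ ^ p.toReal = 0 := by
      rw [hx, norm_zero, Real.zero_rpow (r_pos hp).ne']
    have h4 : phi x = 0 := by rw [hx, map_zero]
    rw [phi_apply] at h4
    rw [h3, div_zero, h4]
  · have h3 : ‖x‖ ^ p.toReal ≠ 0 := by
      have : 0 < ‖x‖ := norm_pos_iff.2 hx
      positivity
    rw [mul_div_assoc, div_self h3, mul_one]

end ADDx

open ADDx in
/-- piece LP-ADD -/
theorem add_ : S_ADD := by
  intro p _ hp
  refine ⟨fun W W' hW hW' hd x => ?_, fun W hW h0 x => ?_, phi, fun x => FW_full hp x,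
    fun y hy => ?_⟩
  · have hWW : Adm (W ∪ W') := ⟨hW.1.union hW'.1, fun q hq => hq.elim (hW.2 q) (hW'.2 q)⟩
    have hi := (hh_int x).mul_prod (gg_int hp x)
    rw [FW_eq hp hWW, FW_eq hp hW, FW_eq hp hW',
      setIntegral_union hd hW'.1 hi.integrableOn hi.integrableOn, add_div]
  · rw [FW_eq hp hW, setIntegral_measure_zero _ h0, zero_div]
  · rw [phi_apply]
    have h1 : ∫ ω, hh y ω ∂mu = ∫ ω, A0.indicator (fun _ => (1 : ℝ)) ω ∂mu := by
      refine integral_congr_ae ?_
      filter_upwards [hy] with ω hω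
      unfold hh
      by_cases h : ω ∈ A0
      · rw [Set.indicator_of_mem h, Set.indicator_of_mem h, hω]
        rw [A0_eq] at h
        exact Set.indicator_of_mem h _
      · rw [Set.indicator_of_notMem h, Set.indicator_of_notMem h]
    rw [h1, integral_indicator A0_meas, setIntegral_const]
    simp [Measure.real, mu_A0]

end Pool.Agent.R722.LP
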