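import Pool.Agent.R722.LP.Stm

/-! # Project LP: piece COMP, composition isometries and indicator functions -/

set_option autoImplicit false

namespace Pool.Agent.R722.LP

open MeasureTheory
open scoped ENNReal NNReal

namespace COMPaux

lemma coe_comp (p : ℝ≥0∞) [Fact (1 ≤ p)] (φ : Om ≃ᵐ Om) (hφ : MeasurePreserving φ mu mu)
    (x : Lp ℝ p mu) : (Lp.compMeasurePreservingₗᵢ ℝ φ hφ x : Om → ℝ) =ᵐ[mu]
      fun ω => (x : Om → ℝ) (φ ω) :=
  Lp.coeFn_compMeasurePreserving x hφ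

lemma surj (p : ℝ≥0∞) [Fact (1 ≤ p)] (φ : Om ≃ᵐ Om) (hφ : MeasurePreserving φ mu mu) :
    Function.Surjective (Lp.compMeasurePreservingₗᵢ ℝ φ hφ : Lp ℝ p mu →ₗᵢ[ℝ] Lp ℝ p mu) := by
  intro y
  have hs : MeasurePreserving φ.symm mu mu := hφ.symm
  refine ⟨Lp.compMeasurePreservingₗᵢ ℝ φ.symm hs y, ?_⟩
  apply Lp.ext
  have h1 := coe_comp p φ hφ (Lp.compMeasurePreservingₗᵢ ℝ φ.symm hs y)
  have h2 := coe_comp p φ.symm hs y
  have h3 := hφ.quasiMeasurePreserving.ae_eq_comp h2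
  filter_upwards [h1, h3] with ω h4 h5
  rw [h4]
  simp only [Function.comp_apply, MeasurableEquiv.symm_apply_apply] at h5
  exact h5

end COMPaux

open COMPaux in
/-- piece LP-COMP -/
theorem comp_ : S_COMP := by
  intro p _ _ φ hφ
  let T : Lp ℝ p mu ≃ₗᵢ[ℝ] Lp ℝ p mu := LinearIsometryEquiv.ofSurjective
    (Lp.compMeasurePreservingₗᵢ ℝ φ hφ : Lp ℝ p mu →ₗᵢ[ℝ] Lp ℝ p mu) (surj p φ hφ)
  have hT : ∀ x, (T x : Om → ℝ) =ᵐ[mu] fun ω => (x : Om → ℝ) (φ ω) := fun x => coe_comp p φ hφ x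
  refine ⟨T, hT, ?_⟩
  intro W _ x
  unfold FW
  rw [T.norm_map]
  congr 1
  have e1 : ∀ᵐ ω ∂mu, (∫ ω', W.indicator (fun _ => (T x : Om → ℝ) ω *
      |(T x : Om → ℝ) ω'| ^ p.toReal) (ω, ω') ∂mu) =
      (fun η : Om => ∫ η', (Set.indicator {q : Om × Om | (φ.symm q.1, φ.symm q.2) ∈ W} (fun _ =>
        (x : Om → ℝ) η * |(x : Om → ℝ) η'| ^ p.toReal) (η, η')) ∂mu) (φ ω) := by
    filter_upwards [hT x] with ω hω
    rw [← hφ.integral_comp' (g := fun η' => (Set.indicator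
      {q : Om × Om | (φ.symm q.1, φ.symm q.2) ∈ W} (fun _ =>
        (x : Om → ℝ) (φ ω) * |(x : Om → ℝ) η'| ^ p.toReal) (φ ω, η')))]
    apply integral_congr_ae
    filter_upwards [hT x] with ω' hω'
    by_cases hW : (ω, ω') ∈ W
    · rw [Set.indicator_of_mem hW, Set.indicator_of_mem, hω, hω']
      simpa using hW
    · rw [Set.indicator_of_notMem hW, Set.indicator_of_notMem]
      simpa using hW
  rw [integral_congr_ae e1]
  exact hφ.integral_comp' (g := fun η : Om => ∫ η', (Set.indicator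
    {q : Om × Om | (φ.symm q.1, φ.symm q.2) ∈ W} (fun _ =>
        (x : Om → ℝ) η * |(x : Om → ℝ) η'| ^ p.toReal) (η, η')) ∂mu)

/-- piece LP-V -/
theorem v_ : S_V := by
  intro p _ _ C hC
  have hm : MeasurableSet (C ×ˢ ({0} : Set ℕ)) := hC.prod (measurableSet_singleton 0)
  have hf : mu (C ×ˢ ({0} : Set ℕ)) ≠ ∞ := by
    unfold mu
    rw [Measure.prod_prod]
    apply ENNReal.mul_ne_top
    · exact (measure_lt_top _ _).ne
    · simp
  exact ⟨indicatorConstLp p hm hf (1 : ℝ), indicatorConstLp_coeFn⟩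

end Pool.Agent.R722.LP
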