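import Pool.Agent.R722.LP.Stm

/-!
# Piece LP-CONE: ping-pong with cones near `0` in the torus
-/

set_option autoImplicit false

namespace Pool.Agent.R722.LP

open MeasureTheory
open scoped ENNReal NNReal

namespace CONEx

/-- the representative of `x` in `[-1/2, 1/2)` -/
noncomputable def f (x : UnitAddCircle) : ℝ := (AddCircle.equivIco (1 : ℝ) (-1 / 2) x : ℝ)

theorem f_meas : Measurable f :=
  measurable_subtype_coe.comp (AddCircle.measurableEquivIco (1 : ℝ) (-1 / 2)).measurable

theorem f_coe (x : UnitAddCircle) : ((f x : ℝ) : UnitAddCircle) = x := AddCircle.coe_equivIco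

theorem f_mem (x : UnitAddCircle) : f x ∈ Set.Ico (-1 / 2 : ℝ) (-1 / 2 + 1) :=
  (AddCircle.equivIco (1 : ℝ) (-1 / 2) x).2

theorem f_of_mem {y : ℝ} (hy : y ∈ Set.Ico (-1 / 2 : ℝ) (-1 / 2 + 1)) :
    f (y : UnitAddCircle) = y := by
  unfold f
  rw [AddCircle.equivIco_coe_eq hy]

theorem norm_eq (x : UnitAddCircle) : ‖x‖ = |f x| := by
  conv_lhs => rw [← f_coe x]
  rw [AddCircle.norm_coe_eq_abs_iff (1 : ℝ) one_ne_zero, abs_one]
  have h := f_mem x
  rw [abs_le]
  constructor
  · linarith [h.1]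
  · linarith [h.2]

theorem f_add {x y : UnitAddCircle} (hx : |f x| < 1 / 8) (hy : |f y| < 1 / 8) :
    f (x + y) = f x + f y := by
  have h : x + y = ((f x + f y : ℝ) : UnitAddCircle) := by
    rw [AddCircle.coe_add, f_coe, f_coe]
  rw [h, f_of_mem]
  rw [abs_lt] at hx hy
  constructor
  · linarith [hx.1, hy.1]
  · linarith [hx.2, hy.2]

theorem f_inj {x y : UnitAddCircle} (h : f x = f y) : x = y := by
  rw [← f_coe x, h, f_coe]

instance noAt : NullSingletonClass (volume : Measure UnitAddCircle) := ⟨fun x => by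
  rw [← Metric.closedBall_zero, AddCircle.volume_closedBall]
  simp⟩

/-- the exceptional null set -/
def Bad : Set TT := {w | f w.1 = 0 ∨ f w.2 = 0 ∨ |f w.1| = |f w.2|}

theorem m1 : Measurable fun w : TT => f w.1 := f_meas.comp measurable_fst

theorem m2 : Measurable fun w : TT => f w.2 := f_meas.comp measurable_snd

theorem abs_meas {g : TT → ℝ} (hg : Measurable g) : Measurable fun w => |g w| :=
  continuous_abs.measurable.comp hg

theorem Bad_meas : MeasurableSet Bad := by
  have h1 : MeasurableSet {w : TT | f w.1 = 0} := measurableSet_eq_fun m1 measurable_const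
  have h2 : MeasurableSet {w : TT | f w.2 = 0} := measurableSet_eq_fun m2 measurable_const
  have h3 : MeasurableSet {w : TT | |f w.1| = |f w.2|} :=
    measurableSet_eq_fun (abs_meas m1) (abs_meas m2)
  exact h1.union (h2.union h3)

theorem Bad_null : (volume : Measure TT) Bad = 0 := by
  rw [Measure.volume_eq_prod, Measure.measure_prod_null Bad_meas]
  have h0 : ∀ᵐ x ∂(volume : Measure UnitAddCircle), x ≠ 0 := by
    rw [ae_iff]
    simp
  filter_upwards [h0] with x hx
  have hx' : f x ≠ 0 := by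
    intro h
    apply hx
    rw [← f_coe x, h]
    simp
  have hsub : Prod.mk x ⁻¹' Bad ⊆
      {((0 : ℝ) : UnitAddCircle), ((f x : ℝ) : UnitAddCircle), ((-f x : ℝ) : UnitAddCircle)} := by
    rintro y (h | h | h)
    · exact absurd h hx'
    · left
      rw [← f_coe y]
      exact congrArg _ h
    · rcases abs_eq_abs.1 h with h | h
      · right; left
        rw [← f_coe y]
        exact congrArg _ h.symm
      · right; right
        rw [Set.mem_singleton_iff, ← f_coe y]
        have h' : f y = - f x := by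
          have h2 : f x = - f y := h
          linarith
        rw [h']
  exact measure_mono_null hsub (Set.Finite.measure_zero (Set.toFinite _) _)

theorem zero_of {n : Set TT → ℝ} (h : GoodT n) {C : Set TT} (hC : MeasurableSet C)
    (hCB : ∀ w ∈ C, |f w.1| < 1 / 8 → |f w.2| < 1 / 8 → w ∈ Bad) : n C = 0 := by
  have hF : MeasurableSet {w : TT | 1 / 8 ≤ max |f w.1| |f w.2|} :=
    measurableSet_le measurable_const ((abs_meas m1).max (abs_meas m2))
  have e : C = (C ∩ {w : TT | 1 / 8 ≤ max |f w.1| |f w.2|}) ∪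
      (C \ {w : TT | 1 / 8 ≤ max |f w.1| |f w.2|}) := (Set.inter_union_sdiff _ _).symm
  rw [e, h.add _ _ (hC.inter hF) (hC.diff hF) Set.disjoint_sdiff_inter.symm]
  rw [h.loc (1 / 8) _ (by norm_num) (hC.inter hF), h.null _ (hC.diff hF), add_zero]
  · refine measure_mono_null ?_ Bad_null
    rintro w ⟨hw1, hw2⟩
    have hw3 : max |f w.1| |f w.2| < 1 / 8 := not_le.1 hw2
    exact hCB w hw1 (lt_of_le_of_lt (le_max_left _ _) hw3)
      (lt_of_le_of_lt (le_max_right _ _) hw3)
  · rintro w ⟨_, hw⟩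
    rw [norm_eq, norm_eq]
    exact hw

theorem germ {n : Set TT → ℝ} (h : GoodT n) {A B : Set TT} (hA : MeasurableSet A)
    (hB : MeasurableSet B)
    (hAB : ∀ w : TT, |f w.1| < 1 / 8 → |f w.2| < 1 / 8 → f w.1 ≠ 0 → f w.2 ≠ 0 →
      |f w.1| ≠ |f w.2| → (w ∈ A ↔ w ∈ B)) : n A = n B := by
  have e1 : n A = n (A ∩ B) + n (A \ B) := by
    rw [← h.add _ _ (hA.inter hB) (hA.diff hB) Set.disjoint_sdiff_inter.symm,
      Set.inter_union_sdiff]
  have e2 : n B = n (A ∩ B) + n (B \ A) := by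
    rw [Set.inter_comm, ← h.add _ _ (hB.inter hA) (hB.diff hA) Set.disjoint_sdiff_inter.symm,
      Set.inter_union_sdiff]
  have z1 : n (A \ B) = 0 := by
    refine zero_of h (hA.diff hB) fun w hw h1 h2 => ?_
    by_contra hb
    have hb' : ¬ (f w.1 = 0 ∨ f w.2 = 0 ∨ |f w.1| = |f w.2|) := hb
    push Not at hb'
    exact hw.2 ((hAB w h1 h2 hb'.1 hb'.2.1 hb'.2.2).1 hw.1)
  have z2 : n (B \ A) = 0 := by
    refine zero_of h (hB.diff hA) fun w hw h1 h2 => ?_
    by_contra hb
    have hb' : ¬ (f w.1 = 0 ∨ f w.2 = 0 ∨ |f w.1| = |f w.2|) := hb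
    push Not at hb'
    exact hw.2 ((hAB w h1 h2 hb'.1 hb'.2.1 hb'.2.2).2 hw.1)
  rw [e1, e2, z1, z2]

theorem r1 (x y : ℝ) : (0 < (x + y) * y ∧ |y| < |x + y|) ↔ 0 < x * y := by
  constructor
  · rintro ⟨h1, h2⟩
    rcases mul_pos_iff.1 h1 with ⟨h3, h4⟩ | ⟨h3, h4⟩
    · rw [abs_of_pos h3, abs_of_pos h4] at h2
      exact mul_pos (by linarith) h4
    · rw [abs_of_neg h3, abs_of_neg h4] at h2
      exact mul_pos_of_neg_of_neg (by linarith) h4
  · intro h
    rcases mul_pos_iff.1 h with ⟨h3, h4⟩ | ⟨h3, h4⟩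
    · have h5 : 0 < x + y := by linarith
      refine ⟨mul_pos h5 h4, ?_⟩
      rw [abs_of_pos h5, abs_of_pos h4]
      linarith
    · have h5 : x + y < 0 := by linarith
      refine ⟨mul_pos_of_neg_of_neg h5 h4, ?_⟩
      rw [abs_of_neg h5, abs_of_neg h4]
      linarith

theorem r2 (x y : ℝ) : (0 < x * (x + y) ∧ |x| < |x + y|) ↔ 0 < x * y := by
  have h := r1 y x
  rw [add_comm y x, mul_comm (x + y) x, mul_comm y x] at h
  exact h

theorem r3 (x y : ℝ) : (x + y) * y < 0 ↔ (x * y < 0 ∧ |y| < |x|) := by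
  constructor
  · intro h
    rcases mul_neg_iff.1 h with ⟨h3, h4⟩ | ⟨h3, h4⟩
    · have h5 : 0 < x := by linarith
      refine ⟨mul_neg_of_pos_of_neg h5 h4, ?_⟩
      rw [abs_of_pos h5, abs_of_neg h4]
      linarith
    · have h5 : x < 0 := by linarith
      refine ⟨mul_neg_of_neg_of_pos h5 h4, ?_⟩
      rw [abs_of_neg h5, abs_of_pos h4]
      linarith
  · rintro ⟨h1, h2⟩
    rcases mul_neg_iff.1 h1 with ⟨h3, h4⟩ | ⟨h3, h4⟩
    · rw [abs_of_pos h3, abs_of_neg h4] at h2
      exact mul_neg_of_pos_of_neg (by linarith) h4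
    · rw [abs_of_neg h3, abs_of_pos h4] at h2
      exact mul_neg_of_neg_of_pos (by linarith) h4

theorem r4 (x y : ℝ) : x * (x + y) < 0 ↔ (x * y < 0 ∧ |x| < |y|) := by
  have h := r3 y x
  rw [add_comm y x, mul_comm (x + y) x, mul_comm y x] at h
  exact h

/-- the cone `XY > 0` -/
def P : Set TT := {w | 0 < f w.1 * f w.2}

/-- the cone `XY > 0`, `|Y| < |X|` -/
def P1 : Set TT := {w | 0 < f w.1 * f w.2 ∧ |f w.2| < |f w.1|}

/-- the cone `XY > 0`, `|X| < |Y|` -/
def P2 : Set TT := {w | 0 < f w.1 * f w.2 ∧ |f w.1| < |f w.2|}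

/-- the cone `XY < 0` -/
def N : Set TT := {w | f w.1 * f w.2 < 0}

/-- the cone `XY < 0`, `|Y| < |X|` -/
def N1 : Set TT := {w | f w.1 * f w.2 < 0 ∧ |f w.2| < |f w.1|}

/-- the cone `XY < 0`, `|X| < |Y|` -/
def N2 : Set TT := {w | f w.1 * f w.2 < 0 ∧ |f w.1| < |f w.2|}

theorem P_meas : MeasurableSet P := measurableSet_lt measurable_const (m1.mul m2)

theorem N_meas : MeasurableSet N := measurableSet_lt (m1.mul m2) measurable_const

theorem P1_meas : MeasurableSet P1 :=
  P_meas.inter (measurableSet_lt (abs_meas m2) (abs_meas m1))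

theorem P2_meas : MeasurableSet P2 :=
  P_meas.inter (measurableSet_lt (abs_meas m1) (abs_meas m2))

theorem N1_meas : MeasurableSet N1 :=
  N_meas.inter (measurableSet_lt (abs_meas m2) (abs_meas m1))

theorem N2_meas : MeasurableSet N2 :=
  N_meas.inter (measurableSet_lt (abs_meas m1) (abs_meas m2))

theorem s1_meas {A : Set TT} (hA : MeasurableSet A) :
    MeasurableSet {w : TT | (w.1 + w.2, w.2) ∈ A} :=
  ((measurable_fst.add measurable_snd).prodMk measurable_snd) hA

theorem s2_meas {A : Set TT} (hA : MeasurableSet A) :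
    MeasurableSet {w : TT | (w.1, w.1 + w.2) ∈ A} :=
  (measurable_fst.prodMk (measurable_fst.add measurable_snd)) hA

end CONEx

open CONEx in
/-- piece LP-CONE -/
theorem cone : S_CONE := by
  intro n h
  have a1 : n P = n P1 := by
    rw [← h.shear1 P1 P1_meas]
    refine germ h P_meas (s1_meas P1_meas) fun w hx hy _ _ _ => ?_
    show (0 < f w.1 * f w.2) ↔
      (0 < f (w.1 + w.2) * f w.2 ∧ |f w.2| < |f (w.1 + w.2)|)
    rw [f_add hx hy]
    exact (r1 _ _).symm
  have a2 : n P = n P2 := by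
    rw [← h.shear2 P2 P2_meas]
    refine germ h P_meas (s2_meas P2_meas) fun w hx hy _ _ _ => ?_
    show (0 < f w.1 * f w.2) ↔
      (0 < f w.1 * f (w.1 + w.2) ∧ |f w.1| < |f (w.1 + w.2)|)
    rw [f_add hx hy]
    exact (r2 _ _).symm
  have a3 : n P = n P1 + n P2 := by
    rw [← h.add _ _ P1_meas P2_meas
      (Set.disjoint_left.2 fun w hw hw' => lt_asymm hw.2 hw'.2)]
    refine germ h P_meas (P1_meas.union P2_meas) fun w _ _ _ _ hne => ?_
    constructor
    · intro hw
      rcases lt_or_gt_of_ne hne with h1 | h1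
      · exact Or.inr ⟨hw, h1⟩
      · exact Or.inl ⟨hw, h1⟩
    · rintro (hw | hw)
      · exact hw.1
      · exact hw.1
  have b1 : n N = n N1 := by
    rw [← h.shear1 N N_meas]
    refine germ h (s1_meas N_meas) N1_meas fun w hx hy _ _ _ => ?_
    show (f (w.1 + w.2) * f w.2 < 0) ↔ (f w.1 * f w.2 < 0 ∧ |f w.2| < |f w.1|)
    rw [f_add hx hy]
    exact r3 _ _
  have b2 : n N = n N2 := by
    rw [← h.shear2 N N_meas]
    refine germ h (s2_meas N_meas) N2_meas fun w hx hy _ _ _ => ?_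
    show (f w.1 * f (w.1 + w.2) < 0) ↔ (f w.1 * f w.2 < 0 ∧ |f w.1| < |f w.2|)
    rw [f_add hx hy]
    exact r4 _ _
  have b3 : n N = n N1 + n N2 := by
    rw [← h.add _ _ N1_meas N2_meas
      (Set.disjoint_left.2 fun w hw hw' => lt_asymm hw.2 hw'.2)]
    refine germ h N_meas (N1_meas.union N2_meas) fun w _ _ _ _ hne => ?_
    constructor
    · intro hw
      rcases lt_or_gt_of_ne hne with h1 | h1
      · exact Or.inr ⟨hw, h1⟩
      · exact Or.inl ⟨hw, h1⟩
    · rintro (hw | hw)
      · exact hw.1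
      · exact hw.1
  have c : n Set.univ = n P + n N := by
    rw [← h.add _ _ P_meas N_meas (Set.disjoint_left.2 fun w hw hw' => by
      have h1 : 0 < f w.1 * f w.2 := hw
      have h2 : f w.1 * f w.2 < 0 := hw'
      exact lt_asymm h1 h2)]
    refine germ h MeasurableSet.univ (P_meas.union N_meas) fun w _ _ hx hy _ => ?_
    constructor
    · intro _
      rcases lt_or_gt_of_ne (mul_ne_zero hx hy) with h1 | h1
      · exact Or.inr h1
      · exact Or.inl h1
    · intro _
      trivial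
  have d := h.one
  linarith

end Pool.Agent.R722.LP
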