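import Pool.Agent.R722.LP.Stm

/-! LP-DEN: `L_1` bound for normalised densities. -/

set_option autoImplicit false

namespace Pool.Agent.R722.LP

open MeasureTheory Pool.Agent.R514.SP
open scoped ENNReal NNReal

namespace DenAux

lemma pt1 (P s a b u : ℝ) (hP : 1 ≤ P) (hs : 0 < s) (hs1 : s < 1) (ha : 0 ≤ a) (hb : 0 ≤ b)
    (hu : 0 ≤ u) (hab : a ≤ b + u) :
    a ^ P - b ^ P ≤ P * s * a ^ P + s ^ (1 - P) * u ^ P := by
  have hP0 : 0 < P := by linarith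
  have h1 : ((1 - s) * a) ^ P ≤ ((1 - s) * b + s * (u / s)) ^ P := by
    apply Real.rpow_le_rpow (by have : 0 ≤ 1 - s := by linarith
                                positivity) _ hP0.le
    have : s * (u / s) = u := by field_simp
    rw [this]
    nlinarith
  have h2 : ((1 - s) * b + s * (u / s)) ^ P ≤ (1 - s) * b ^ P + s * (u / s) ^ P := by
    have hus : (0:ℝ) ≤ u / s := by positivity
    have h := (convexOn_rpow hP).2 (show b ∈ Set.Ici (0:ℝ) from hb)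
      (show u / s ∈ Set.Ici (0:ℝ) from hus) (show 0 ≤ 1 - s by linarith) hs.le (by ring)
    simpa [smul_eq_mul] using h
  have h3 : 1 - P * s ≤ (1 - s) ^ P := by
    have h := one_add_mul_self_le_rpow_one_add (s := -s) (by linarith) hP
    have e : 1 + -s = 1 - s := by ring
    rw [e] at h
    linarith
  have h4 : s * (u / s) ^ P = s ^ (1 - P) * u ^ P := by
    rw [Real.div_rpow hu hs.le, Real.rpow_sub hs, Real.rpow_one]
    ring
  have h5 : ((1 - s) * a) ^ P = (1 - s) ^ P * a ^ P := Real.mul_rpow (by linarith) ha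
  have ha' : 0 ≤ a ^ P := Real.rpow_nonneg ha _
  have hb' : 0 ≤ b ^ P := Real.rpow_nonneg hb _
  have h6 : (1 - P * s) * a ^ P ≤ (1 - s) ^ P * a ^ P := mul_le_mul_of_nonneg_right h3 ha'
  have h7 : (1 - s) * b ^ P ≤ b ^ P := by nlinarith
  rw [h5] at h1
  linarith

lemma pt (P s a b u : ℝ) (hP : 1 ≤ P) (hs : 0 < s) (hs1 : s < 1) (ha : 0 ≤ a) (hb : 0 ≤ b)
    (hab : |a - b| ≤ u) :
    |a ^ P - b ^ P| ≤ P * s * (a ^ P + b ^ P) + s ^ (1 - P) * u ^ P := by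
  have hu : 0 ≤ u := (abs_nonneg _).trans hab
  rw [abs_le] at hab
  have h1 := pt1 P s a b u hP hs hs1 ha hb hu (by linarith)
  have h2 := pt1 P s b a u hP hs hs1 hb ha hu (by linarith)
  have ha' : 0 ≤ a ^ P := Real.rpow_nonneg ha _
  have hb' : 0 ≤ b ^ P := Real.rpow_nonneg hb _
  have h3 : 0 ≤ P * s * a ^ P := by positivity
  have h4 : 0 ≤ P * s * b ^ P := by positivity
  rw [abs_le]
  constructor <;> linarith

lemma norm_pow {Ω : Type*} [MeasurableSpace Ω] {μ : Measure Ω} (p : ℝ≥0∞) [Fact (1 ≤ p)]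
    (hp : p ≠ ∞) (x : Lp ℝ p μ) :
    ∫ ω, |(x : Ω → ℝ) ω| ^ p.toReal ∂μ = ‖x‖ ^ p.toReal := by
  have h1 : (1 : ℝ≥0∞) ≤ p := Fact.out
  have hp0 : p ≠ 0 := (lt_of_lt_of_le one_pos h1).ne'
  have hP : 0 < p.toReal := ENNReal.toReal_pos hp0 hp
  have h := (Lp.memLp x).eLpNorm_eq_integral_rpow_norm hp0 hp
  have h0 : 0 ≤ ∫ ω, ‖(x : Ω → ℝ) ω‖ ^ p.toReal ∂μ :=
    integral_nonneg fun ω => by positivity
  rw [Lp.norm_def, h, ENNReal.toReal_ofReal (by positivity), Real.rpow_inv_rpow h0 hP.ne']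
  rfl

lemma integ {Ω : Type*} [MeasurableSpace Ω] {μ : Measure Ω} (p : ℝ≥0∞) [Fact (1 ≤ p)]
    (hp : p ≠ ∞) (x : Lp ℝ p μ) :
    Integrable (fun ω => |(x : Ω → ℝ) ω| ^ p.toReal) μ := by
  have h1 : (1 : ℝ≥0∞) ≤ p := Fact.out
  have hp0 : p ≠ 0 := (lt_of_lt_of_le one_pos h1).ne'
  exact (Lp.memLp x).integrable_norm_rpow hp0 hp

end DenAux

open DenAux in
theorem den : S_DEN := by
  intro p _ hp
  have h1 : (1 : ℝ≥0∞) ≤ p := Fact.out
  have hp0 : p ≠ 0 := (lt_of_lt_of_le one_pos h1).ne'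
  have hP : 1 ≤ p.toReal := by
    have := ENNReal.toReal_mono hp h1
    simpa using this
  set P := p.toReal with hPd
  refine ⟨2 * (2 * P + 2), by positivity, ?_⟩
  intro x y hx hy
  have hx0 : 0 < ‖x‖ := norm_pos_iff.2 hx
  have hy0 : 0 < ‖y‖ := norm_pos_iff.2 hy
  set z : Lp ℝ p mu := ‖x‖⁻¹ • x - ‖y‖⁻¹ • y with hz
  set d : ℝ := ‖z‖ with hd
  have hd2 : d ≤ 2 * ‖x - y‖ / ‖y‖ := by
    have e : z = ‖y‖⁻¹ • (x - y) + (‖x‖⁻¹ - ‖y‖⁻¹) • x := by
      rw [hz, smul_sub, sub_smul]; abel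
    have h2 : ‖(‖x‖⁻¹ - ‖y‖⁻¹) • x‖ ≤ ‖x - y‖ / ‖y‖ := by
      rw [norm_smul, Real.norm_eq_abs]
      have : (‖x‖⁻¹ - ‖y‖⁻¹) = (‖y‖ - ‖x‖) / (‖x‖ * ‖y‖) := by field_simp
      rw [this, abs_div, abs_of_pos (by positivity : 0 < ‖x‖ * ‖y‖)]
      have h3 : |‖y‖ - ‖x‖| ≤ ‖x - y‖ := by
        rw [abs_sub_comm]; exact abs_norm_sub_norm_le x y
      calc |‖y‖ - ‖x‖| / (‖x‖ * ‖y‖) * ‖x‖ = |‖y‖ - ‖x‖| / ‖y‖ := by field_simp
        _ ≤ _ := by gcongr
    calc d = ‖‖y‖⁻¹ • (x - y) + (‖x‖⁻¹ - ‖y‖⁻¹) • x‖ := by rw [hd, e]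
      _ ≤ ‖‖y‖⁻¹ • (x - y)‖ + ‖(‖x‖⁻¹ - ‖y‖⁻¹) • x‖ := norm_add_le _ _
      _ ≤ ‖x - y‖ / ‖y‖ + ‖x - y‖ / ‖y‖ := by
          apply add_le_add _ h2
          rw [norm_smul, norm_inv, norm_norm]
          exact le_of_eq (by ring)
      _ = _ := by ring
  have hd0 : 0 ≤ d := norm_nonneg _
  have hxi := integ p hp x
  have hyi := integ p hp y
  have hzi := integ p hp z
  have hxn := norm_pow p hp x
  have hyn := norm_pow p hp y
  have hzn := norm_pow p hp z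
  rw [← hPd] at hxi hyi hzi hxn hyn hzn
  have hxP : 0 < ‖x‖ ^ P := by positivity
  have hyP : 0 < ‖y‖ ^ P := by positivity
  have hI1 : ∫ ω, |(x : Om → ℝ) ω| ^ P / ‖x‖ ^ P ∂mu = 1 := by
    rw [integral_div, hxn]; field_simp
  have hI2 : ∫ ω, |(y : Om → ℝ) ω| ^ P / ‖y‖ ^ P ∂mu = 1 := by
    rw [integral_div, hyn]; field_simp
  have hzae : ∀ᵐ ω ∂mu, (z : Om → ℝ) ω =
      (x : Om → ℝ) ω / ‖x‖ - (y : Om → ℝ) ω / ‖y‖ := by
    filter_upwards [Lp.coeFn_sub (‖x‖⁻¹ • x) (‖y‖⁻¹ • y), Lp.coeFn_smul (‖x‖⁻¹) x,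
      Lp.coeFn_smul (‖y‖⁻¹) y] with ω h2 h3 h4
    rw [hz, h2, Pi.sub_apply, h3, h4]
    simp only [Pi.smul_apply, smul_eq_mul]
    ring
  -- the main bound
  have key : ∫ ω, |(|(x : Om → ℝ) ω| ^ P / ‖x‖ ^ P - |(y : Om → ℝ) ω| ^ P / ‖y‖ ^ P)| ∂mu ≤
      (2 * P + 2) * d := by
    rcases hd0.eq_or_lt with h | h
    · -- `d = 0`
      have hz0 : z = 0 := norm_eq_zero.1 (by rw [← hd, ← h])
      have e : ∀ᵐ ω ∂mu, |(|(x : Om → ℝ) ω| ^ P / ‖x‖ ^ P -
          |(y : Om → ℝ) ω| ^ P / ‖y‖ ^ P)| = 0 := by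
        have hz1 : ∀ᵐ ω ∂mu, (z : Om → ℝ) ω = 0 := by
          rw [hz0]
          exact Lp.coeFn_zero _ _ _
        filter_upwards [hzae, hz1] with ω h2 h3
        rw [h3] at h2
        have h4 : (x : Om → ℝ) ω / ‖x‖ = (y : Om → ℝ) ω / ‖y‖ := by linarith
        rw [← Real.div_rpow (abs_nonneg _) hx0.le, ← Real.div_rpow (abs_nonneg _) hy0.le]
        have e1 : |(x : Om → ℝ) ω| / ‖x‖ = |(x : Om → ℝ) ω / ‖x‖| := by
          rw [abs_div, abs_of_pos hx0]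
        have e2 : |(y : Om → ℝ) ω| / ‖y‖ = |(y : Om → ℝ) ω / ‖y‖| := by
          rw [abs_div, abs_of_pos hy0]
        rw [e1, e2, h4]
        simp
      rw [integral_congr_ae e, ← h]
      simp
    · by_cases hd1 : d < 1
      · have hb : ∀ᵐ ω ∂mu, |(|(x : Om → ℝ) ω| ^ P / ‖x‖ ^ P - |(y : Om → ℝ) ω| ^ P / ‖y‖ ^ P)| ≤
            P * d * (|(x : Om → ℝ) ω| ^ P / ‖x‖ ^ P + |(y : Om → ℝ) ω| ^ P / ‖y‖ ^ P) +
              d ^ (1 - P) * |(z : Om → ℝ) ω| ^ P := by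
          filter_upwards [hzae] with ω h2
          rw [← Real.div_rpow (abs_nonneg _) hx0.le, ← Real.div_rpow (abs_nonneg _) hy0.le]
          apply pt P d _ _ _ hP h hd1 (by positivity) (by positivity)
          rw [h2]
          have e1 : |(x : Om → ℝ) ω| / ‖x‖ = |(x : Om → ℝ) ω / ‖x‖| := by
            rw [abs_div, abs_of_pos hx0]
          have e2 : |(y : Om → ℝ) ω| / ‖y‖ = |(y : Om → ℝ) ω / ‖y‖| := by
            rw [abs_div, abs_of_pos hy0]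
          rw [e1, e2]
          exact abs_abs_sub_abs_le _ _
        have i1 : Integrable (fun ω => P * d * (|(x : Om → ℝ) ω| ^ P / ‖x‖ ^ P +
            |(y : Om → ℝ) ω| ^ P / ‖y‖ ^ P)) mu :=
          ((hxi.div_const _).add (hyi.div_const _)).const_mul _
        have i2 : Integrable (fun ω => d ^ (1 - P) * |(z : Om → ℝ) ω| ^ P) mu :=
          hzi.const_mul _
        calc ∫ ω, |(|(x : Om → ℝ) ω| ^ P / ‖x‖ ^ P - |(y : Om → ℝ) ω| ^ P / ‖y‖ ^ P)| ∂mu ≤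
            ∫ ω, (P * d * (|(x : Om → ℝ) ω| ^ P / ‖x‖ ^ P + |(y : Om → ℝ) ω| ^ P / ‖y‖ ^ P) +
              d ^ (1 - P) * |(z : Om → ℝ) ω| ^ P) ∂mu :=
              integral_mono_ae ((hxi.div_const _).sub (hyi.div_const _)).abs (i1.add i2) hb
          _ = P * d * (1 + 1) + d ^ (1 - P) * d ^ P := by
              rw [integral_add i1 i2, integral_const_mul, integral_const_mul,
                integral_add (hxi.div_const _) (hyi.div_const _), hI1, hI2, hzn]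
          _ = (2 * P + 1) * d := by
              rw [← Real.rpow_add h]
              have : 1 - P + P = 1 := by ring
              rw [this, Real.rpow_one]
              ring
          _ ≤ _ := by nlinarith
      · rw [not_lt] at hd1
        calc ∫ ω, |(|(x : Om → ℝ) ω| ^ P / ‖x‖ ^ P - |(y : Om → ℝ) ω| ^ P / ‖y‖ ^ P)| ∂mu ≤
            ∫ ω, (|(x : Om → ℝ) ω| ^ P / ‖x‖ ^ P + |(y : Om → ℝ) ω| ^ P / ‖y‖ ^ P) ∂mu := by
              apply integral_mono_ae ((hxi.div_const _).sub (hyi.div_const _)).abs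
                ((hxi.div_const _).add (hyi.div_const _))
              filter_upwards with ω
              have ha : 0 ≤ |(x : Om → ℝ) ω| ^ P / ‖x‖ ^ P := by positivity
              have hb : 0 ≤ |(y : Om → ℝ) ω| ^ P / ‖y‖ ^ P := by positivity
              simp only [Pi.add_apply, Pi.sub_apply]
              rw [abs_le]
              constructor <;> linarith
          _ = 2 := by
              rw [integral_add (hxi.div_const _) (hyi.div_const _), hI1, hI2]; norm_num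
          _ ≤ _ := by nlinarith
  calc _ ≤ (2 * P + 2) * d := key
    _ ≤ (2 * P + 2) * (2 * ‖x - y‖ / ‖y‖) := by gcongr
    _ = _ := by ring

end Pool.Agent.R722.LP
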