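import Pool.Agent.R722.LP.Stm
import Pool.Agent.R514.SP.Main

/-!
# MP_32ff52_an (project LP): assembly
-/

set_option autoImplicit false

namespace Pool.Agent.R722.LP

open MeasureTheory Pool.Agent.R514.SP
open scoped ENNReal NNReal

theorem s_M (hv : S_V) (h1 : S_M1) (h2 : S_M2) : S_M := by
  intro p _ hp P hP
  obtain ⟨v, hv'⟩ := hv p hp Set.univ MeasurableSet.univ
  obtain ⟨ha, hn, ho, hi⟩ := h1 p hp P hP v hv'
  exact ⟨Mf p P v, ⟨ha, hn, ho, hi, h2 p hp P hP v hv'⟩⟩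

theorem noMu (hM : S_M) (ht : S_TOR) (hc : S_CONE) (p : ℝ≥0∞) [Fact (1 ≤ p)] (hp : p ≠ ∞) :
    ¬ ∃ P : MapsToDual (Lp ℝ p mu), HP P := by
  rintro ⟨P, hP⟩
  obtain ⟨M, hG⟩ := hM p hp P hP
  exact hc _ (ht M hG)

section transfer

variable {X Y : Type} [NormedAddCommGroup X] [NormedSpace ℝ X] [NormedAddCommGroup Y]
  [NormedSpace ℝ Y]

theorem comp_mem (e : X ≃ₗᵢ[ℝ] Y) (f : Lip0 Y) : (fun x => f.1 (e x)) ∈ Lip0 X := by
  obtain ⟨f, h0, K, hK⟩ := f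
  refine ⟨by simpa using h0, K * 1, ?_⟩
  exact hK.comp e.isometry.lipschitz

/-- composition with an isometry, as a linear map -/
def compLip (e : X ≃ₗᵢ[ℝ] Y) : Lip0 Y →ₗ[ℝ] Lip0 X where
  toFun f := ⟨fun x => f.1 (e x), comp_mem e f⟩
  map_add' f g := rfl
  map_smul' c f := rfl

/-- composition with an isometry, on the dual -/
noncomputable def compDual (e : X ≃ₗᵢ[ℝ] Y) : (X →L[ℝ] ℝ) →ₗ[ℝ] (Y →L[ℝ] ℝ) where
  toFun φ := φ.comp (e.symm.toContinuousLinearEquiv : Y →L[ℝ] X)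
  map_add' φ ψ := rfl
  map_smul' c φ := rfl

theorem lin_mem (φ : X →L[ℝ] ℝ) : (⇑φ : X → ℝ) ∈ Lip0 X :=
  ⟨map_zero φ, _, φ.lipschitz⟩

theorem transfer (e : X ≃ₗᵢ[ℝ] Y) (P : MapsToDual X) (hP : HP P) :
    ∃ Q : MapsToDual Y, HP Q := by
  refine ⟨(compDual e).comp (P.comp (compLip e)), ?_, ?_⟩
  · intro φ h
    ext y
    have h1 : compLip e ⟨φ, h⟩ =
        ⟨(φ.comp (e.toContinuousLinearEquiv : X →L[ℝ] Y) : X →L[ℝ] ℝ), lin_mem _⟩ :=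
      Subtype.ext rfl
    show P (compLip e ⟨φ, h⟩) (e.symm y) = φ y
    rw [h1, hP.1]
    simp
  · intro g f f' hff y
    show P (compLip e f') (e.symm y) = P (compLip e f) (e.symm (g y))
    have h1 := hP.2 ((e.trans g).trans e.symm) (compLip e f) (compLip e f')
      (fun x => by
        show f'.1 (e x) = f.1 (e (e.symm (g (e x))))
        rw [e.apply_symm_apply]
        exact hff (e x)) (e.symm y)
    rw [h1]
    congr 1
    show e.symm (g (e (e.symm y))) = e.symm (g y)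
    rw [e.apply_symm_apply]

end transfer

theorem noInterval (hM : S_M) (ht : S_TOR) (hc : S_CONE) (hI : S_IC) (p : ℝ≥0∞) [Fact (1 ≤ p)]
    (hp : p ≠ ∞) :
    ¬ ∃ P : MapsToDual (Lp ℝ p (volume.restrict (Set.Icc (0 : ℝ) 1))), HP P := by
  rintro ⟨P, hP⟩
  obtain ⟨e⟩ := hI p hp
  exact noMu hM ht hc p hp (transfer e P hP)

theorem seqFail (p : ℝ≥0∞) [Fact (1 ≤ p)] (hp1 : 1 < p) (hp : p ≠ ∞) :
    ¬ ∃ P : MapsToDual (lp (fun _ : ℕ => ℝ) p), HP P := by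
  rintro ⟨P, hP, hG⟩
  have e : Nonempty (Option (ℕ ⊕ (ℕ ⊕ ℕ)) ≃ ℕ) :=
    ⟨(Denumerable.eqv (Option (ℕ ⊕ (ℕ ⊕ ℕ))))⟩
  obtain ⟨e⟩ := e
  have h1 : 1 < p.toReal := by
    have := (ENNReal.toReal_lt_toReal (by norm_num) hp).2 hp1
    simpa using this
  refine core hp h1 e P hP (fun g f f' h x => ?_)
  exact hG g f f' h x

theorem seqIff (hB : S_LB) (p : ℝ≥0∞) [Fact (1 ≤ p)] (hp : p ≠ ∞) :
    (∃ P : MapsToDual (lp (fun _ : ℕ => ℝ) p), IsProjection P ∧ IsBounded P ∧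
      ∀ g : lp (fun _ : ℕ => ℝ) p ≃ₗᵢ[ℝ] lp (fun _ : ℕ => ℝ) p,
        Commutes P g.toContinuousLinearEquiv) ↔ p = 1 := by
  constructor
  · rintro ⟨P, h1, -, h2⟩
    by_contra h
    exact seqFail p (lt_of_le_of_ne (Fact.out : 1 ≤ p) (Ne.symm h)) hp ⟨P, h1, h2⟩
  · rintro rfl
    obtain ⟨P, hb, h1, h2⟩ := hB
    exact ⟨P, h1, hb, h2⟩

end Pool.Agent.R722.LP
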