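import Pool.Agent.R722.LP.Stm

set_option autoImplicit false

/-! Project LP, piece IA: change of density. -/

namespace Pool.Agent.R722.LP

open MeasureTheory Pool.Agent.R514.SP
open scoped ENNReal NNReal

namespace IA

section gen

variable {α : Type} [MeasurableSpace α] {μ : Measure α} {w : α → ℝ≥0∞} {g : α → ℝ} {p : ℝ≥0∞}

theorem norm_eq (hp0 : p ≠ 0) (hp : p ≠ ∞) (hw : Measurable w) (hg : Measurable g)
    (hwg : ∀ ω, w ω * ‖g ω‖ₑ ^ p.toReal = 1) {f : α → ℝ} (hf : AEStronglyMeasurable f μ) :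
    eLpNorm (fun ω => g ω * f ω) p (μ.withDensity w) = eLpNorm f p μ := by
  have ac1 : μ.withDensity w ≪ μ := withDensity_absolutelyContinuous _ _
  rw [eLpNorm_eq_lintegral_rpow_enorm_toReal hp0 hp, eLpNorm_eq_lintegral_rpow_enorm_toReal hp0 hp]
  congr 1
  rw [lintegral_withDensity_eq_lintegral_mul₀ hw.aemeasurable]
  · apply lintegral_congr
    intro ω
    simp only [Pi.mul_apply]
    rw [enorm_mul, ENNReal.mul_rpow_of_nonneg _ _ ENNReal.toReal_nonneg, ← mul_assoc, hwg, one_mul]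
  · exact ((hg.aemeasurable.mul hf.aemeasurable).enorm).pow_const _

theorem ex [Fact (1 ≤ p)] (hp0 : p ≠ 0) (hp : p ≠ ∞) (hw : Measurable w) (hg : Measurable g)
    (hgne : ∀ ω, g ω ≠ 0) (hwg : ∀ ω, w ω * ‖g ω‖ₑ ^ p.toReal = 1) :
    Nonempty (Lp ℝ p μ ≃ₗᵢ[ℝ] Lp ℝ p (μ.withDensity w)) := by
  have hw0 : ∀ ω, w ω ≠ 0 := by
    intro ω h
    have := hwg ω
    rw [h, zero_mul] at this
    exact zero_ne_one this
  have ac1 : μ.withDensity w ≪ μ := withDensity_absolutelyContinuous _ _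
  have ac2 : μ ≪ μ.withDensity w :=
    withDensity_absolutelyContinuous' hw.aemeasurable (Filter.Eventually.of_forall hw0)
  have mem : ∀ x : Lp ℝ p μ, MemLp (fun ω => g ω * (x : α → ℝ) ω) p (μ.withDensity w) := by
    intro x
    refine ⟨hg.aestronglyMeasurable.mul ((Lp.aestronglyMeasurable x).mono_ac ac1), ?_⟩
    rw [norm_eq hp0 hp hw hg hwg (Lp.aestronglyMeasurable x)]
    exact Lp.eLpNorm_lt_top x
  let L : Lp ℝ p μ →ₗ[ℝ] Lp ℝ p (μ.withDensity w) :=
    { toFun := fun x => (mem x).toLp _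
      map_add' := by
        intro x y
        apply Lp.ext
        filter_upwards [(mem (x + y)).coeFn_toLp, (mem x).coeFn_toLp, (mem y).coeFn_toLp,
          Lp.coeFn_add ((mem x).toLp _) ((mem y).toLp _), ac1.ae_eq (Lp.coeFn_add x y)]
          with ω h1 h2 h3 h4 h5
        rw [h1, h4, Pi.add_apply, h2, h3, h5, Pi.add_apply]
        ring
      map_smul' := by
        intro c x
        apply Lp.ext
        filter_upwards [(mem (c • x)).coeFn_toLp, (mem x).coeFn_toLp,
          Lp.coeFn_smul c ((mem x).toLp _), ac1.ae_eq (Lp.coeFn_smul c x)]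
          with ω h1 h2 h3 h4
        rw [h1, RingHom.id_apply, h3, Pi.smul_apply, h2, h4, Pi.smul_apply, smul_eq_mul,
          smul_eq_mul]
        ring }
  have hL : ∀ x, L x = (mem x).toLp _ := fun x => rfl
  have hn : ∀ x, ‖L x‖ = ‖x‖ := by
    intro x
    rw [hL, Lp.norm_toLp, Lp.norm_def, norm_eq hp0 hp hw hg hwg (Lp.aestronglyMeasurable x)]
  have hs : Function.Surjective L := by
    intro y
    have hm : AEStronglyMeasurable (fun ω => (g ω)⁻¹ * (y : α → ℝ) ω) μ :=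
      hg.inv.aestronglyMeasurable.mul ((Lp.aestronglyMeasurable y).mono_ac ac2)
    have hgy : (fun ω => g ω * ((g ω)⁻¹ * (y : α → ℝ) ω)) = (y : α → ℝ) := by
      funext ω
      rw [← mul_assoc, mul_inv_cancel₀ (hgne ω), one_mul]
    have hx : MemLp (fun ω => (g ω)⁻¹ * (y : α → ℝ) ω) p μ := by
      refine ⟨hm, ?_⟩
      rw [← norm_eq hp0 hp hw hg hwg hm, hgy]
      exact Lp.eLpNorm_lt_top y
    refine ⟨hx.toLp _, ?_⟩
    apply Lp.ext
    rw [hL]
    filter_upwards [(mem (hx.toLp _)).coeFn_toLp, ac1.ae_eq hx.coeFn_toLp] with ω h1 h2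
    rw [h1, h2]
    exact congrFun hgy ω
  exact ⟨LinearIsometryEquiv.ofSurjective ⟨L, hn⟩ hs⟩

end gen

theorem meas_w : Measurable (fun ω : Om => (2 : ℝ≥0∞)⁻¹ ^ (ω.2 + 1)) :=
  (measurable_of_countable (fun n : ℕ => (2 : ℝ≥0∞)⁻¹ ^ (n + 1))).comp measurable_snd

theorem prob : IsProbabilityMeasure nu := by
  constructor
  have h1 : nu Set.univ = ∫⁻ ω, (2 : ℝ≥0∞)⁻¹ ^ (ω.2 + 1) ∂mu := by
    unfold nu
    rw [withDensity_apply _ MeasurableSet.univ, Measure.restrict_univ]
  rw [h1]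
  unfold mu
  rw [lintegral_prod _ meas_w.aemeasurable]
  have h2 : ∀ a : TT, ∫⁻ z : ℕ, (2 : ℝ≥0∞)⁻¹ ^ (((a, z) : Om).2 + 1) ∂Measure.count = 1 := by
    intro a
    rw [lintegral_count]
    rw [ENNReal.tsum_geometric_add_one, ENNReal.one_sub_inv_two, inv_inv]
    exact ENNReal.inv_mul_cancel (by norm_num) (by norm_num)
  refine (lintegral_congr (fun a => h2 a)).trans ?_
  rw [lintegral_one]
  have h3 : (volume : Measure TT) Set.univ = 1 := by
    rw [Measure.volume_eq_prod, ← Set.univ_prod_univ, Measure.prod_prod,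
      UnitAddCircle.measure_univ, one_mul]
  exact h3

theorem pt : ∀ ω : Om, nu {ω} = 0 := by
  intro ω
  have ac1 : nu ≪ mu := withDensity_absolutelyContinuous _ _
  apply ac1
  obtain ⟨⟨a, b⟩, z⟩ := ω
  have h0 : (volume : Measure UnitAddCircle) {a} = 0 := by
    have h := AddCircle.volume_closedBall (T := 1) (x := a) 0
    rw [Metric.closedBall_zero] at h
    rw [h]
    simp
  unfold mu
  rw [← Set.singleton_prod_singleton, Measure.prod_prod, ← Set.singleton_prod_singleton,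
    Measure.volume_eq_prod, Measure.prod_prod, h0, zero_mul, zero_mul]

end IA

theorem ia : S_IA := by
  refine ⟨IA.prob, IA.pt, ?_⟩
  intro p _ hp
  have hp1 : 1 ≤ p := Fact.out
  have hp0 : p ≠ 0 := by
    intro h
    rw [h] at hp1
    exact absurd hp1 (by norm_num)
  have hpr : 0 < p.toReal := ENNReal.toReal_pos hp0 hp
  unfold nu
  refine IA.ex (g := fun ω : Om => (2 : ℝ) ^ (((ω.2 : ℝ) + 1) / p.toReal)) hp0 hp IA.meas_w ?_ ?_ ?_
  · exact (measurable_of_countable (fun n : ℕ => (2 : ℝ) ^ (((n : ℝ) + 1) / p.toReal))).comp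
      measurable_snd
  · intro ω
    positivity
  · intro ω
    have hg : 0 < (2 : ℝ) ^ (((ω.2 : ℝ) + 1) / p.toReal) := by positivity
    rw [Real.enorm_eq_ofReal hg.le, ENNReal.ofReal_rpow_of_pos hg, ← Real.rpow_mul (by norm_num),
      div_mul_cancel₀ _ hpr.ne']
    have : (2 : ℝ) ^ ((ω.2 : ℝ) + 1) = 2 ^ (ω.2 + 1) := by
      rw [← Real.rpow_natCast]
      push_cast
      rfl
    rw [this, ENNReal.ofReal_pow (by norm_num)]
    rw [show ENNReal.ofReal 2 = 2 by norm_num, ← mul_pow, ENNReal.inv_mul_cancel (by norm_num)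
      (by norm_num), one_pow]

end Pool.Agent.R722.LP
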