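import Pool.Agent.R722.LP.Stm

/-!
# Project LP, piece IB: distribution function and quantile function of an atomless law
-/

set_option autoImplicit false

namespace Pool.Agent.R722.LP

open MeasureTheory Pool.Agent.R514.SP ProbabilityTheory
open scoped ENNReal NNReal

namespace IBAux

open Set Filter Topology

variable (ρ : Measure ℝ) [IsProbabilityMeasure ρ]

theorem cont_cdf (hat : ∀ x, ρ {x} = 0) : Continuous (cdf ρ) := by
  rw [continuous_iff_continuousAt]
  intro a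
  rw [(monotone_cdf ρ).continuousAt_iff_leftLim_eq_rightLim, StieltjesFunction.rightLim_eq]
  refine le_antisymm ((monotone_cdf ρ).leftLim_le le_rfl) ?_
  have h : (cdf ρ).measure {a} = 0 := by
    rw [measure_cdf]
    exact hat a
  rw [StieltjesFunction.measure_singleton, ENNReal.ofReal_eq_zero] at h
  linarith

/-- the quantile function -/
noncomputable def Q (u : ℝ) : ℝ :=
  open Classical in if u ∈ Ioo (0 : ℝ) 1 then sInf {x | u ≤ cdf ρ x} else 0

theorem Q_le_iff (hat : ∀ x, ρ {x} = 0) {u : ℝ} (hu : u ∈ Ioo (0 : ℝ) 1) (x : ℝ) :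
    Q ρ u ≤ x ↔ u ≤ cdf ρ x := by
  have hQ : Q ρ u = sInf {x | u ≤ cdf ρ x} := if_pos hu
  have hcl : IsClosed {x | u ≤ cdf ρ x} := isClosed_le continuous_const (cont_cdf ρ hat)
  have hne : {x | u ≤ cdf ρ x}.Nonempty := by
    obtain ⟨y, hy⟩ := ((tendsto_cdf_atTop ρ).eventually (lt_mem_nhds hu.2)).exists
    exact ⟨y, hy.le⟩
  have hbb : BddBelow {x | u ≤ cdf ρ x} := by
    obtain ⟨y, hy⟩ := ((tendsto_cdf_atBot ρ).eventually (gt_mem_nhds hu.1)).exists
    refine ⟨y, fun z hz => ?_⟩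
    by_contra hlt
    push Not at hlt
    have h1 : cdf ρ z ≤ cdf ρ y := monotone_cdf ρ hlt.le
    have h2 : u ≤ cdf ρ z := hz
    linarith
  rw [hQ]
  constructor
  · intro h
    have h1 : u ≤ cdf ρ (sInf {x | u ≤ cdf ρ x}) := hcl.csInf_mem hne hbb
    exact h1.trans (monotone_cdf ρ h)
  · intro h
    exact csInf_le hbb h

theorem cdf_Q (hat : ∀ x, ρ {x} = 0) {u : ℝ} (hu : u ∈ Ioo (0 : ℝ) 1) : cdf ρ (Q ρ u) = u := by
  refine le_antisymm ?_ ((Q_le_iff ρ hat hu _).1 le_rfl)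
  by_contra hlt
  push Not at hlt
  have hev : ∀ᶠ x in 𝓝 (Q ρ u), u < cdf ρ x :=
    (cont_cdf ρ hat).continuousAt.eventually (lt_mem_nhds hlt)
  obtain ⟨x, hx1, hx2⟩ := hev.exists_lt
  exact absurd ((Q_le_iff ρ hat hu x).2 hx2.le) (not_le.2 hx1)

theorem meas_Q (hat : ∀ x, ρ {x} = 0) : Measurable (Q ρ) := by
  apply measurable_of_Iic
  intro x
  have e : Q ρ ⁻¹' Iic x = (Ioo (0 : ℝ) 1 ∩ Iic (cdf ρ x)) ∪ ((Ioo (0 : ℝ) 1)ᶜ ∩ {_u | 0 ≤ x}) := by
    ext u
    by_cases hu : u ∈ Ioo (0 : ℝ) 1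
    · have h := Q_le_iff ρ hat hu x
      constructor
      · intro hx
        exact Or.inl ⟨hu, h.1 hx⟩
      · rintro (h1 | h1)
        · exact h.2 h1.2
        · exact absurd hu h1.1
    · have hQ : Q ρ u = 0 := if_neg hu
      constructor
      · intro hx
        refine Or.inr ⟨hu, ?_⟩
        have hx' : Q ρ u ≤ x := hx
        rwa [hQ] at hx'
      · rintro (h1 | h1)
        · exact absurd h1.1 hu
        · change Q ρ u ≤ x
          rw [hQ]
          exact h1.2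
  rw [e]
  exact (measurableSet_Ioo.inter measurableSet_Iic).union
    (measurableSet_Ioo.compl.inter (MeasurableSet.const _))

theorem restr_eq : (volume : Measure ℝ).restrict (Icc 0 1) = volume.restrict (Ioo 0 1) :=
  (Measure.restrict_congr_set Ioo_ae_eq_Icc).symm

theorem law_Q (hat : ∀ x, ρ {x} = 0) :
    Measure.map (Q ρ) ((volume : Measure ℝ).restrict (Icc 0 1)) = ρ := by
  have hm := meas_Q ρ hat
  symm
  apply Measure.ext_of_Iic
  intro x
  rw [Measure.map_apply hm measurableSet_Iic, restr_eq,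
    Measure.restrict_apply (hm measurableSet_Iic), ← ofReal_cdf]
  have e : Q ρ ⁻¹' Iic x ∩ Ioo 0 1 = Ioo (0 : ℝ) 1 ∩ Iic (cdf ρ x) := by
    ext u
    constructor
    · rintro ⟨h1, h2⟩
      exact ⟨h2, (Q_le_iff ρ hat h2 x).1 h1⟩
    · rintro ⟨h1, h2⟩
      exact ⟨(Q_le_iff ρ hat h1 x).2 h2, h1⟩
  rw [e]
  rcases lt_or_eq_of_le (cdf_le_one ρ x) with h | h
  · have e2 : Ioo (0 : ℝ) 1 ∩ Iic (cdf ρ x) = Ioc 0 (cdf ρ x) := by
      ext u
      constructor
      · rintro ⟨h1, h2⟩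
        exact ⟨h1.1, h2⟩
      · rintro ⟨h1, h2⟩
        exact ⟨⟨h1, h2.trans_lt h⟩, h2⟩
    rw [e2, Real.volume_Ioc, sub_zero]
  · have e2 : Ioo (0 : ℝ) 1 ∩ Iic (cdf ρ x) = Ioo 0 1 := by
      refine inter_eq_left.2 fun u hu => ?_
      change u ≤ cdf ρ x
      rw [h]
      exact hu.2.le
    rw [e2, Real.volume_Ioo, sub_zero, h]

end IBAux

open IBAux in
theorem ib : S_IB := by
  intro ρ hρ hat
  have hm := meas_Q ρ hat
  have hc := (cont_cdf ρ hat).measurable
  have hlaw := law_Q ρ hat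
  have hFH : ∀ᵐ u ∂((volume : Measure ℝ).restrict (Set.Icc 0 1)), cdf ρ (Q ρ u) = u := by
    rw [restr_eq]
    filter_upwards [ae_restrict_mem measurableSet_Ioo] with u hu
    exact cdf_Q ρ hat hu
  refine ⟨cdf ρ, Q ρ, ⟨hc, ?_⟩, ⟨hm, hlaw⟩, ?_, hFH⟩
  · have h1 := congrArg (Measure.map (cdf ρ)) hlaw
    rw [Measure.map_map hc hm] at h1
    rw [← h1]
    have h2 : (cdf ρ : ℝ → ℝ) ∘ Q ρ =ᵐ[(volume : Measure ℝ).restrict (Set.Icc 0 1)] id := hFH
    rw [Measure.map_congr h2, Measure.map_id]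
  · have h3 : ∀ᵐ x ∂(Measure.map (Q ρ) ((volume : Measure ℝ).restrict (Set.Icc 0 1))),
        Q ρ (cdf ρ x) = x := by
      have hms : MeasurableSet {x : ℝ | Q ρ (cdf ρ x) = x} :=
        measurableSet_eq_fun (hm.comp hc) measurable_id
      rw [ae_map_iff hm.aemeasurable hms]
      filter_upwards [hFH] with u hu
      rw [hu]
    rwa [hlaw] at h3

end Pool.Agent.R722.LP
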