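import Pool.Agent.R514.SP.Defs

/-!
# MP_32ff52_an (project LP): no equivariant projection for `L_p[0,1]`, one for `ℓ_1`

Statements of the pieces; complete proofs are in `notes.md`.
-/

set_option autoImplicit false

namespace Pool.Agent.R722.LP

open MeasureTheory Pool.Agent.R514.SP
open scoped ENNReal NNReal

/-- the torus -/
abbrev TT : Type := UnitAddCircle × UnitAddCircle

/-- countably many tori -/
abbrev Om : Type := TT × ℕ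

/-- the measure -/
noncomputable def mu : Measure Om := (volume : Measure TT).prod Measure.count

/-- `F_W(x) = ‖x‖^(-p) ∫∫ x(ω) 1_W(ω, ω') |x(ω')|^p` -/
noncomputable def FW (p : ℝ≥0∞) [Fact (1 ≤ p)] (W : Set (Om × Om)) (x : Lp ℝ p mu) : ℝ :=
  (∫ ω, (∫ ω', W.indicator (fun _ => (x : Om → ℝ) ω * |(x : Om → ℝ) ω'| ^ p.toReal) (ω, ω') ∂mu)
    ∂mu) / ‖x‖ ^ p.toReal

/-- measurable, with first variable in the torus number `0` -/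
def Adm (W : Set (Om × Om)) : Prop := MeasurableSet W ∧ ∀ q ∈ W, q.1.2 = 0

/-- `y` is the indicator function of `C × {0}` -/
def IsV (p : ℝ≥0∞) [Fact (1 ≤ p)] (C : Set TT) (y : Lp ℝ p mu) : Prop :=
  (y : Om → ℝ) =ᵐ[mu] Set.indicator (C ×ˢ {0}) (fun _ => (1 : ℝ))

/-- piece LP-DEN -/
def S_DEN : Prop := ∀ (p : ℝ≥0∞) [Fact (1 ≤ p)], p ≠ ∞ → ∃ c : ℝ, 0 ≤ c ∧
  ∀ x y : Lp ℝ p mu, x ≠ 0 → y ≠ 0 →
    ∫ ω, |(|(x : Om → ℝ) ω| ^ p.toReal / ‖x‖ ^ p.toReal -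
      |(y : Om → ℝ) ω| ^ p.toReal / ‖y‖ ^ p.toReal)| ∂mu ≤ c * ‖x - y‖ / ‖y‖

/-- piece LP-LIP -/
def S_LIP : Prop := ∀ (p : ℝ≥0∞) [Fact (1 ≤ p)], p ≠ ∞ → ∀ W : Set (Om × Om), Adm W →
  FW p W ∈ Lip0 (Lp ℝ p mu)

/-- piece LP-ADD -/
def S_ADD : Prop := ∀ (p : ℝ≥0∞) [Fact (1 ≤ p)], p ≠ ∞ →
  (∀ W W' : Set (Om × Om), Adm W → Adm W' → Disjoint W W' → ∀ x, FW p (W ∪ W') x =
    FW p W x + FW p W' x) ∧
  (∀ W : Set (Om × Om), Adm W → (mu.prod mu) W = 0 → ∀ x, FW p W x = 0) ∧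
  (∃ φ : Lp ℝ p mu →L[ℝ] ℝ, (∀ x, FW p {q | q.1.2 = 0} x = φ x) ∧
    ∀ y, IsV p Set.univ y → φ y = 1)

/-- piece LP-V -/
def S_V : Prop := ∀ (p : ℝ≥0∞) [Fact (1 ≤ p)], p ≠ ∞ → ∀ C : Set TT, MeasurableSet C →
  ∃ y, IsV p C y

/-- piece LP-COMP: composition with a measure preserving map -/
def S_COMP : Prop := ∀ (p : ℝ≥0∞) [Fact (1 ≤ p)], p ≠ ∞ → ∀ φ : Om ≃ᵐ Om,
  MeasurePreserving φ mu mu → ∃ T : Lp ℝ p mu ≃ₗᵢ[ℝ] Lp ℝ p mu,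
    (∀ x, (T x : Om → ℝ) =ᵐ[mu] fun ω => (x : Om → ℝ) (φ ω)) ∧
    ∀ W, Adm W → ∀ x, FW p W (T x) = FW p {q | (φ.symm q.1, φ.symm q.2) ∈ W} x

/-- piece LP-SIGN: change of sign on a set -/
def S_SIGN : Prop := ∀ (p : ℝ≥0∞) [Fact (1 ≤ p)], p ≠ ∞ → ∀ B : Set Om, MeasurableSet B →
  ∃ T : Lp ℝ p mu ≃ₗᵢ[ℝ] Lp ℝ p mu,
    (∀ x, (T x : Om → ℝ) =ᵐ[mu] fun ω => (1 - 2 * B.indicator (fun _ => (1 : ℝ)) ω) *
      (x : Om → ℝ) ω) ∧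
    ∀ W, Adm W → (∀ q ∈ W, q.1 ∉ B) → ∀ x, FW p W (T x) = FW p W x

/-- the properties of the set function `M(K) = P(F_K)(v)` -/
structure Good (M : Set (TT × TT) → ℝ) : Prop where
  add : ∀ K K', MeasurableSet K → MeasurableSet K' → Disjoint K K' → M (K ∪ K') = M K + M K'
  null : ∀ K, MeasurableSet K → (volume : Measure (TT × TT)) K = 0 → M K = 0
  one : M Set.univ = 1
  inv : ∀ g : TT ≃ᵐ TT, MeasurePreserving g volume volume → ∀ K, MeasurableSet K →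
    M {q | (g q.1, g q.2) ∈ K} = M K
  loc : ∀ (C D : Set TT) (K : Set (TT × TT)), MeasurableSet C → MeasurableSet D →
    MeasurableSet K → Disjoint C D → K ⊆ C ×ˢ D → M K = 0

/-- a projection onto the dual which commutes with all isometries -/
def HP {X : Type} [NormedAddCommGroup X] [NormedSpace ℝ X] (P : MapsToDual X) : Prop :=
  IsProjection P ∧ ∀ g : X ≃ₗᵢ[ℝ] X, Commutes P g.toContinuousLinearEquiv

/-- the kernel of `K` -/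
def wK (K : Set (TT × TT)) : Set (Om × Om) := {q | q.1.2 = 0 ∧ (q.1.1, q.2.1) ∈ K}

open Classical in
/-- `P (F_K) (v)` -/
noncomputable def Mf (p : ℝ≥0∞) [Fact (1 ≤ p)] (P : MapsToDual (Lp ℝ p mu)) (v : Lp ℝ p mu)
    (K : Set (TT × TT)) : ℝ :=
  if h : FW p (wK K) ∈ Lip0 (Lp ℝ p mu) then P ⟨FW p (wK K), h⟩ v else 0

/-- piece LP-M1 -/
def S_M1 : Prop := ∀ (p : ℝ≥0∞) [Fact (1 ≤ p)], p ≠ ∞ → ∀ P : MapsToDual (Lp ℝ p mu), HP P →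
  ∀ v, IsV p Set.univ v →
  (∀ K K', MeasurableSet K → MeasurableSet K' → Disjoint K K' →
    Mf p P v (K ∪ K') = Mf p P v K + Mf p P v K') ∧
  (∀ K, MeasurableSet K → (volume : Measure (TT × TT)) K = 0 → Mf p P v K = 0) ∧
  Mf p P v Set.univ = 1 ∧
  (∀ g : TT ≃ᵐ TT, MeasurePreserving g volume volume → ∀ K, MeasurableSet K →
    Mf p P v {q | (g q.1, g q.2) ∈ K} = Mf p P v K)

/-- piece LP-M2 -/
def S_M2 : Prop := ∀ (p : ℝ≥0∞) [Fact (1 ≤ p)], p ≠ ∞ → ∀ P : MapsToDual (Lp ℝ p mu), HP P →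
  ∀ v, IsV p Set.univ v → ∀ (C D : Set TT) (K : Set (TT × TT)), MeasurableSet C →
  MeasurableSet D → MeasurableSet K → Disjoint C D → K ⊆ C ×ˢ D → Mf p P v K = 0

/-- assembly -/
def S_M : Prop := ∀ (p : ℝ≥0∞) [Fact (1 ≤ p)], p ≠ ∞ → ∀ P : MapsToDual (Lp ℝ p mu), HP P →
  ∃ M, Good M

/-- the properties of `n(A) = M {(s, t) | t - s ∈ A}` -/
structure GoodT (n : Set TT → ℝ) : Prop where
  add : ∀ A A', MeasurableSet A → MeasurableSet A' → Disjoint A A' → n (A ∪ A') = n A + n A'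
  null : ∀ A, MeasurableSet A → (volume : Measure TT) A = 0 → n A = 0
  one : n Set.univ = 1
  shear1 : ∀ A, MeasurableSet A → n {w | (w.1 + w.2, w.2) ∈ A} = n A
  shear2 : ∀ A, MeasurableSet A → n {w | (w.1, w.1 + w.2) ∈ A} = n A
  loc : ∀ (ε : ℝ) (A : Set TT), 0 < ε → MeasurableSet A → (∀ w ∈ A, ε ≤ max ‖w.1‖ ‖w.2‖) →
    n A = 0

/-- piece LP-TOR -/
def S_TOR : Prop := ∀ M : Set (TT × TT) → ℝ, Good M → GoodT fun A => M {q | q.2 - q.1 ∈ A}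

/-- piece LP-CONE -/
def S_CONE : Prop := ∀ n : Set TT → ℝ, ¬ GoodT n

/-- the probability measure with density `2^(-z-1)` -/
noncomputable def nu : Measure Om := mu.withDensity fun ω => (2 : ℝ≥0∞)⁻¹ ^ (ω.2 + 1)

/-- piece LP-IA: change of density -/
def S_IA : Prop := IsProbabilityMeasure nu ∧ (∀ ω : Om, nu {ω} = 0) ∧
  ∀ (p : ℝ≥0∞) [Fact (1 ≤ p)], p ≠ ∞ → Nonempty (Lp ℝ p mu ≃ₗᵢ[ℝ] Lp ℝ p nu)

/-- piece LP-IB: distribution function and quantile function -/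
def S_IB : Prop := ∀ ρ : Measure ℝ, IsProbabilityMeasure ρ → (∀ x, ρ {x} = 0) →
  ∃ F H : ℝ → ℝ, MeasurePreserving F ρ (volume.restrict (Set.Icc 0 1)) ∧
    MeasurePreserving H (volume.restrict (Set.Icc 0 1)) ρ ∧
    (∀ᵐ x ∂ρ, H (F x) = x) ∧ ∀ᵐ u ∂(volume.restrict (Set.Icc (0 : ℝ) 1)), F (H u) = u

/-- piece LP-IC: `L_p[0,1]` is isometric to `L_p(mu)` -/
def S_IC : Prop := ∀ (p : ℝ≥0∞) [Fact (1 ≤ p)], p ≠ ∞ →
  Nonempty (Lp ℝ p (volume.restrict (Set.Icc (0 : ℝ) 1)) ≃ₗᵢ[ℝ] Lp ℝ p mu)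

/-- piece LP-LA: the isometries of `ℓ_1` are signed permutations of the basis -/
def S_LA : Prop := ∀ g : lp (fun _ : ℕ => ℝ) 1 ≃ₗᵢ[ℝ] lp (fun _ : ℕ => ℝ) 1,
  ∃ (σ : Equiv.Perm ℕ) (s : ℕ → ℝ), (∀ i, s i = 1 ∨ s i = -1) ∧
    ∀ i, g (lp.single 1 i (1 : ℝ)) = s i • lp.single 1 (σ i) (1 : ℝ)

/-- piece LP-LB: the projection for `ℓ_1` -/
def S_LB : Prop := ∃ P : MapsToDual (lp (fun _ : ℕ => ℝ) 1), IsBounded P ∧ HP P

end Pool.Agent.R722.LP
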