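import Mathlib
import Pool.Agent.R722.LP.Stm

/-! # LP-IC: `L_p[0,1]` is isometric to `L_p(mu)` -/

set_option autoImplicit false

namespace Pool.Agent.R722.LP

open MeasureTheory
open scoped ENNReal NNReal

namespace IC

theorem lpEquiv {α β : Type} [MeasurableSpace α] [MeasurableSpace β] {μ : Measure α}
    {ν : Measure β} (f : α → β) (g : β → α) (hf : MeasurePreserving f μ ν)
    (hg : MeasurePreserving g ν μ) (hgf : ∀ᵐ x ∂μ, g (f x) = x) (p : ℝ≥0∞) [Fact (1 ≤ p)] :
    Nonempty (Lp ℝ p ν ≃ₗᵢ[ℝ] Lp ℝ p μ) := by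
  let T : Lp ℝ p ν →ₗᵢ[ℝ] Lp ℝ p μ := Lp.compMeasurePreservingₗᵢ ℝ f hf
  refine ⟨LinearIsometryEquiv.ofSurjective T fun y => ?_⟩
  refine ⟨Lp.compMeasurePreserving g hg y, ?_⟩
  show Lp.compMeasurePreserving f hf (Lp.compMeasurePreserving g hg y) = y
  apply Lp.ext
  have h1 := Lp.coeFn_compMeasurePreserving (Lp.compMeasurePreserving g hg y) hf
  have h2 := hf.quasiMeasurePreserving.ae_eq_comp (Lp.coeFn_compMeasurePreserving y hg)
  filter_upwards [h1, h2, hgf] with x e1 e2 e3
  rw [e1]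
  show (Lp.compMeasurePreserving g hg y : β → ℝ) (f x) = _
  have e2' : (Lp.compMeasurePreserving g hg y : β → ℝ) (f x) = (y : α → ℝ) (g (f x)) := e2
  rw [e2', e3]

end IC

open IC in
theorem ic (h1 : S_IA) (h2 : S_IB) : S_IC := by
  intro p _ hp
  obtain ⟨hprob, hat, hiso⟩ := h1
  have hna : NullSingletonClass nu := ⟨hat⟩
  have hunc : ¬ Countable Om := by
    intro hc
    have h3 : nu Set.univ = 0 := (Set.countable_univ).measure_zero nu
    rw [measure_univ] at h3
    exact one_ne_zero h3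
  have hunc' : ¬ Countable ℝ := by
    intro hc
    exact Cardinal.not_countable_real (Set.countable_univ)
  let ψ : Om ≃ᵐ ℝ := PolishSpace.measurableEquivOfNotCountable hunc hunc'
  have hψ : MeasurePreserving ψ nu (nu.map ψ) := ψ.measurable.measurePreserving nu
  have hψs : MeasurePreserving ψ.symm (nu.map ψ) nu := hψ.symm ψ
  have hprob' : IsProbabilityMeasure (nu.map ψ) :=
    Measure.isProbabilityMeasure_map ψ.measurable.aemeasurable
  have hat' : ∀ x, (nu.map ψ) {x} = 0 := by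
    intro x
    rw [Measure.map_apply ψ.measurable (measurableSet_singleton x)]
    have : ψ ⁻¹' {x} = {ψ.symm x} := by
      ext ω
      simp only [Set.mem_preimage, Set.mem_singleton_iff]
      exact ⟨fun h => by rw [← h, MeasurableEquiv.symm_apply_apply],
        fun h => by rw [h, MeasurableEquiv.apply_symm_apply]⟩
    rw [this]
    exact hat _
  obtain ⟨F, H, hF, hH, hHF, _⟩ := h2 (nu.map ψ) hprob' hat'
  obtain ⟨e1⟩ := lpEquiv F H hF hH hHF p
  obtain ⟨e2⟩ := lpEquiv ψ ψ.symm hψ hψs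
    (Filter.Eventually.of_forall fun x => MeasurableEquiv.symm_apply_apply ψ x) p
  obtain ⟨e3⟩ := hiso p hp
  exact ⟨(e1.trans e2).trans e3.symm⟩

end Pool.Agent.R722.LP
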