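import Pool.Agent.R722.LP.Stm

/-!
# Piece LA: the isometries of `ℓ_1` are signed permutations of the basis
-/

set_option autoImplicit false

namespace Pool.Agent.R722.LP

open MeasureTheory Pool.Agent.R514.SP
open scoped ENNReal NNReal

namespace LAaux

/-- `ℓ_1` -/
abbrev L1 : Type := lp (fun _ : ℕ => ℝ) 1

theorem hs (f : L1) : HasSum (fun i => |f i|) ‖f‖ := by
  have h := lp.hasSum_norm (p := 1) (by norm_num) f
  simpa using h

theorem real1 (a b : ℝ) : |a + b| + |a - b| ≤ 2 * (|a| + |b|) := by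
  have h1 := abs_add_le a b
  have h2 := abs_sub a b
  linarith

theorem real2 (a b : ℝ) (h : |a + b| + |a - b| = 2 * (|a| + |b|)) : a * b = 0 := by
  by_contra hab
  have ha : a ≠ 0 := left_ne_zero_of_mul hab
  have hb : b ≠ 0 := right_ne_zero_of_mul hab
  rcases lt_or_gt_of_ne ha with ha | ha <;> rcases lt_or_gt_of_ne hb with hb | hb
  · rw [abs_of_neg ha, abs_of_neg hb] at h
    rcases abs_cases (a + b) with h1 | h1 <;> rcases abs_cases (a - b) with h2 | h2 <;>
      linarith [h1.1, h1.2, h2.1, h2.2]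
  · rw [abs_of_neg ha, abs_of_pos hb] at h
    rcases abs_cases (a + b) with h1 | h1 <;> rcases abs_cases (a - b) with h2 | h2 <;>
      linarith [h1.1, h1.2, h2.1, h2.2]
  · rw [abs_of_pos ha, abs_of_neg hb] at h
    rcases abs_cases (a + b) with h1 | h1 <;> rcases abs_cases (a - b) with h2 | h2 <;>
      linarith [h1.1, h1.2, h2.1, h2.2]
  · rw [abs_of_pos ha, abs_of_pos hb] at h
    rcases abs_cases (a + b) with h1 | h1 <;> rcases abs_cases (a - b) with h2 | h2 <;>
      linarith [h1.1, h1.2, h2.1, h2.2]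

theorem real3 (a b : ℝ) (h : a * b = 0) : |a + b| + |a - b| = 2 * (|a| + |b|) := by
  rcases mul_eq_zero.mp h with h | h <;> subst h <;> simp <;> ring

theorem disj_iff (x y : L1) :
    ‖x + y‖ + ‖x - y‖ = 2 * (‖x‖ + ‖y‖) ↔ ∀ i, x i * y i = 0 := by
  have h1 : HasSum (fun i => |x i + y i|) ‖x + y‖ := by
    have := hs (x + y); simpa using this
  have h2 : HasSum (fun i => |x i - y i|) ‖x - y‖ := by
    have := hs (x - y); simpa using this
  have h3 : HasSum (fun i => 2 * (|x i| + |y i|) - (|x i + y i| + |x i - y i|))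
      (2 * (‖x‖ + ‖y‖) - (‖x + y‖ + ‖x - y‖)) :=
    (((hs x).add (hs y)).mul_left 2).sub (h1.add h2)
  have h4 : ∀ i, 0 ≤ 2 * (|x i| + |y i|) - (|x i + y i| + |x i - y i|) := fun i => by
    linarith [real1 (x i) (y i)]
  constructor
  · intro h i
    rw [show 2 * (‖x‖ + ‖y‖) - (‖x + y‖ + ‖x - y‖) = 0 by linarith,
      hasSum_zero_iff_of_nonneg h4] at h3
    have h5 := congrFun h3 i
    simp only [Pi.zero_apply] at h5
    exact real2 _ _ (by linarith)
  · intro h
    have h5 : (fun i => 2 * (|x i| + |y i|) - (|x i + y i| + |x i - y i|)) = fun _ => (0 : ℝ) := by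
      funext i
      rw [real3 _ _ (h i), sub_self]
    rw [h5] at h3
    have h6 := h3.unique hasSum_zero
    linarith

theorem key (g : L1 ≃ₗᵢ[ℝ] L1) (i : ℕ) : ∃ (k : ℕ) (c : ℝ), (c = 1 ∨ c = -1) ∧
    g (lp.single 1 i (1 : ℝ)) = c • lp.single 1 k (1 : ℝ) := by
  set e : L1 := lp.single 1 i (1 : ℝ) with he
  set x : L1 := g e with hx
  have hen : ‖e‖ = 1 := by
    rw [he, lp.norm_single (by norm_num)]; simp
  have hxn : ‖x‖ = 1 := by rw [hx, LinearIsometryEquiv.norm_map, hen]
  have hx0 : ∃ k, x k ≠ 0 := by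
    by_contra hcon
    push Not at hcon
    have : x = 0 := by
      ext k
      simpa using hcon k
    rw [this, norm_zero] at hxn
    exact zero_ne_one hxn
  obtain ⟨k, hk⟩ := hx0
  set u : L1 := lp.single 1 k (x k) with hu
  set v : L1 := x - u with hv
  have huv : ∀ j, u j * v j = 0 := by
    intro j
    by_cases hj : j = k
    · subst hj
      have : v j = 0 := by
        rw [hv, lp.coeFn_sub, Pi.sub_apply, hu, lp.single_apply_self, sub_self]
      rw [this, mul_zero]
    · rw [hu, lp.single_apply_ne _ _ _ hj, zero_mul]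
  have h1 := (disj_iff u v).mpr huv
  have h2 : ∀ j, g.symm u j * g.symm v j = 0 := by
    rw [← disj_iff, ← map_add, ← map_sub, LinearIsometryEquiv.norm_map,
      LinearIsometryEquiv.norm_map, LinearIsometryEquiv.norm_map, LinearIsometryEquiv.norm_map]
    exact h1
  have h3 : g.symm u + g.symm v = e := by
    rw [← map_add, hv, add_sub_cancel, hx, LinearIsometryEquiv.symm_apply_apply]
  have h4 : ∀ j, g.symm u j + g.symm v j = e j := by
    intro j
    rw [← h3, lp.coeFn_add, Pi.add_apply]
  have hoff : ∀ j, j ≠ i → g.symm u j = 0 ∧ g.symm v j = 0 := by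
    intro j hj
    have h5 := h4 j
    rw [he, lp.single_apply_ne _ _ _ hj] at h5
    rcases mul_eq_zero.mp (h2 j) with h6 | h6
    · exact ⟨h6, by linarith⟩
    · exact ⟨by linarith, h6⟩
  have hu0 : u ≠ 0 := by
    intro h
    apply hk
    have : u k = 0 := by rw [h]; rfl
    rwa [hu, lp.single_apply_self] at this
  have hv0 : v = 0 := by
    rcases mul_eq_zero.mp (h2 i) with h6 | h6
    · exfalso
      apply hu0
      have h7 : g.symm u = 0 := by
        ext j
        by_cases hj : j = i
        · rw [hj, h6]; rfl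
        · rw [(hoff j hj).1]; rfl
      have h8 := congrArg g h7
      rwa [LinearIsometryEquiv.apply_symm_apply, map_zero] at h8
    · have h7 : g.symm v = 0 := by
        ext j
        by_cases hj : j = i
        · rw [hj, h6]; rfl
        · rw [(hoff j hj).2]; rfl
      have h8 := congrArg g h7
      rwa [LinearIsometryEquiv.apply_symm_apply, map_zero] at h8
  have hxu : x = u := by rwa [hv, sub_eq_zero] at hv0
  refine ⟨k, x k, ?_, ?_⟩
  · have h5 : ‖u‖ = |x k| := by
      rw [hu, lp.norm_single (by norm_num), Real.norm_eq_abs]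
    rw [← hxu, hxn] at h5
    exact (abs_eq zero_le_one).mp h5.symm
  · rw [← lp.single_smul, smul_eq_mul, mul_one]
    exact hxu

theorem inj_aux {i j : ℕ} {c : ℝ} (h : (lp.single 1 i (1 : ℝ) : L1) = c • lp.single 1 j (1 : ℝ)) :
    i = j := by
  by_contra hij
  have h1 := congrArg (fun f : L1 => f i) h
  simp only [lp.coeFn_smul, Pi.smul_apply, lp.single_apply_self,
    lp.single_apply_ne _ _ _ hij, smul_zero] at h1
  exact one_ne_zero h1

end LAaux

open LAaux in
theorem la : S_LA := by
  intro g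
  choose σ s hs1 hs2 using key g
  have hinj : Function.Injective σ := by
    intro i j hij
    have h1 := hs2 i
    have h2 := hs2 j
    rw [hij] at h1
    have hsj : s j ≠ 0 := by rcases hs1 j with h | h <;> rw [h] <;> norm_num
    have h3 : g (lp.single 1 i (1 : ℝ)) = g ((s i * (s j)⁻¹) • lp.single 1 j (1 : ℝ)) := by
      rw [map_smul, h2, smul_smul, mul_assoc, inv_mul_cancel₀ hsj, mul_one, h1]
    exact inj_aux (g.injective h3)
  have hsurj : Function.Surjective σ := by
    intro k
    obtain ⟨i, c, hc, h1⟩ := key g.symm k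
    refine ⟨i, ?_⟩
    have h2 := congrArg g h1
    rw [LinearIsometryEquiv.apply_symm_apply, map_smul, hs2 i, smul_smul] at h2
    exact (inj_aux h2).symm
  exact ⟨Equiv.ofBijective σ ⟨hinj, hsurj⟩, s, hs1, fun i => hs2 i⟩

end Pool.Agent.R722.LP
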