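import Pool.Agent.R722.LP.Stm

/-!
# LP-LB: an equivariant projection for `ℓ_1`
-/

set_option autoImplicit false

namespace Pool.Agent.R722.LP

open MeasureTheory Pool.Agent.R514.SP Filter Topology
open scoped ENNReal NNReal

namespace LBaux

abbrev X1 : Type := lp (fun _ : ℕ => ℝ) 1

/-- the unit vectors -/
noncomputable def e (i : ℕ) : X1 := lp.single 1 i (1 : ℝ)

theorem exists_lim {a : ℕ → ℝ} {C : ℝ} (h : ∀ n, |a n| ≤ C) :
    ∃ L, Tendsto a (hyperfilter ℕ : Filter ℕ) (𝓝 L) ∧ |L| ≤ C := by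
  have hc : IsCompact (Set.Icc (-C) C) := isCompact_Icc
  obtain ⟨L, hL, hle⟩ := isCompact_iff_ultrafilter_le_nhds.1 hc ((hyperfilter ℕ).map a) (by
    rw [le_principal_iff, Ultrafilter.coe_map]
    exact Filter.mem_map.2 (Filter.univ_mem' fun n => abs_le.1 (h n)))
  exact ⟨L, hle, abs_le.2 hL⟩

/-- the difference quotients -/
noncomputable def qq (i : ℕ) (f : X1 → ℝ) (n : ℕ) : ℝ :=
  (f ((n : ℝ) • e i) - f (-((n : ℝ) • e i))) / (2 * n)

theorem norm_e (i : ℕ) : ‖e i‖ = 1 := by
  unfold e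
  rw [lp.norm_single (by norm_num)]
  simp

theorem qq_bound {f : X1 → ℝ} {K : ℝ≥0} (hf : LipschitzWith K f) (i n : ℕ) :
    |qq i f n| ≤ K := by
  unfold qq
  rcases Nat.eq_zero_or_pos n with rfl | hn
  · simp
  · have hn0 : (0 : ℝ) < n := by exact_mod_cast hn
    have h1 := hf.dist_le_mul ((n : ℝ) • e i) (-((n : ℝ) • e i))
    have h2 : dist ((n : ℝ) • e i) (-((n : ℝ) • e i)) = 2 * n := by
      rw [dist_eq_norm, sub_neg_eq_add, ← two_smul ℝ, smul_smul, norm_smul, norm_e, mul_one,
        Real.norm_eq_abs, abs_of_pos (by positivity)]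
    rw [h2, Real.dist_eq] at h1
    rw [abs_div, abs_of_pos (by positivity : (0 : ℝ) < 2 * n), div_le_iff₀ (by positivity)]
    exact h1

/-- the limits -/
noncomputable def ph (i : ℕ) (f : X1 → ℝ) : ℝ :=
  limUnder (hyperfilter ℕ : Filter ℕ) (qq i f)

theorem ph_spec {f : X1 → ℝ} {K : ℝ≥0} (hf : LipschitzWith K f) (i : ℕ) :
    Tendsto (qq i f) (hyperfilter ℕ : Filter ℕ) (𝓝 (ph i f)) ∧ |ph i f| ≤ K := by
  obtain ⟨L, hL, hb⟩ := exists_lim (qq_bound hf i)
  have : ph i f = L := hL.limUnder_eq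
  rw [this]
  exact ⟨hL, hb⟩

theorem ph_eq {f : X1 → ℝ} {i : ℕ} {L : ℝ}
    (h : Tendsto (qq i f) (hyperfilter ℕ : Filter ℕ) (𝓝 L)) : ph i f = L := h.limUnder_eq

theorem ph_add (f g : Lip0 X1) (i : ℕ) : ph i (f + g).1 = ph i f.1 + ph i g.1 := by
  obtain ⟨K, hK⟩ := f.2.2
  obtain ⟨L, hL⟩ := g.2.2
  apply ph_eq
  refine ((ph_spec hK i).1.add (ph_spec hL i).1).congr fun n => ?_
  change qq i f.1 n + qq i g.1 n = qq i (f.1 + g.1) n
  unfold qq
  simp only [Pi.add_apply]
  ring

theorem ph_smul (c : ℝ) (f : Lip0 X1) (i : ℕ) : ph i (c • f).1 = c * ph i f.1 := by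
  obtain ⟨K, hK⟩ := f.2.2
  apply ph_eq
  refine ((ph_spec hK i).1.const_mul c).congr fun n => ?_
  change c * qq i f.1 n = qq i (c • f.1) n
  unfold qq
  simp only [Pi.smul_apply, smul_eq_mul]
  ring

theorem hasSum_abs (x : X1) : HasSum (fun i => |x i|) ‖x‖ := by
  have h := lp.hasSum_norm (p := 1) (by norm_num) x
  simpa using h

theorem summable_mul {b : ℕ → ℝ} {K : ℝ} (hb : ∀ i, |b i| ≤ K) (x : X1) :
    Summable fun i => b i * x i := by
  refine Summable.of_norm_bounded ((hasSum_abs x).summable.mul_left K) fun i => ?_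
  rw [Real.norm_eq_abs, abs_mul]
  exact mul_le_mul_of_nonneg_right (hb i) (abs_nonneg _)

theorem tsum_bound {b : ℕ → ℝ} {K : ℝ} (hb : ∀ i, |b i| ≤ K) (x : X1) :
    |∑' i, b i * x i| ≤ K * ‖x‖ := by
  have h1 : HasSum (fun i => K * |x i|) (K * ‖x‖) := (hasSum_abs x).mul_left K
  have h2 := tsum_of_norm_bounded (f := fun i => b i * x i) h1 fun i => by
    rw [Real.norm_eq_abs, abs_mul]
    exact mul_le_mul_of_nonneg_right (hb i) (abs_nonneg _)
  rwa [Real.norm_eq_abs] at h2

/-- the functional -/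
noncomputable def fn (f : Lip0 X1) : X1 →L[ℝ] ℝ :=
  LinearMap.mkContinuousOfExistsBound
    { toFun := fun x => ∑' i, ph i f.1 * x i
      map_add' := fun x y => by
        obtain ⟨K, hK⟩ := f.2.2
        rw [← (summable_mul (fun i => (ph_spec hK i).2) x).tsum_add
          (summable_mul (fun i => (ph_spec hK i).2) y)]
        refine tsum_congr fun i => ?_
        rw [lp.coeFn_add, Pi.add_apply, mul_add]
      map_smul' := fun c x => by
        rw [RingHom.id_apply, smul_eq_mul, ← tsum_mul_left]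
        refine tsum_congr fun i => ?_
        rw [lp.coeFn_smul, Pi.smul_apply, smul_eq_mul]
        ring }
    (by
      obtain ⟨K, hK⟩ := f.2.2
      exact ⟨K, fun x => tsum_bound (fun i => (ph_spec hK i).2) x⟩)

theorem fn_apply (f : Lip0 X1) (x : X1) : fn f x = ∑' i, ph i f.1 * x i := rfl

theorem fn_e (f : Lip0 X1) (j : ℕ) : fn f (e j) = ph j f.1 := by
  rw [fn_apply, tsum_eq_single j]
  · unfold e
    rw [lp.coeFn_single, Pi.single_eq_same, mul_one]
  · intro i hi
    unfold e
    rw [lp.coeFn_single, Pi.single_eq_of_ne hi, mul_zero]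

/-- the projection -/
noncomputable def P : MapsToDual X1 where
  toFun := fn
  map_add' f g := by
    obtain ⟨K, hK⟩ := f.2.2
    obtain ⟨L, hL⟩ := g.2.2
    ext x
    change fn (f + g) x = fn f x + fn g x
    rw [fn_apply, fn_apply, fn_apply, ← (summable_mul (fun i => (ph_spec hK i).2) x).tsum_add
          (summable_mul (fun i => (ph_spec hL i).2) x)]
    refine tsum_congr fun i => ?_
    rw [ph_add, add_mul]
  map_smul' c f := by
    ext x
    change fn (c • f) x = c * fn f x
    rw [fn_apply, fn_apply, ← tsum_mul_left]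
    refine tsum_congr fun i => ?_
    rw [ph_smul, mul_assoc]

theorem ext_e {A B : X1 →L[ℝ] ℝ} (h : ∀ i, A (e i) = B (e i)) : A = B := by
  ext x
  have h1 := lp.hasSum_single (p := 1) (by norm_num) x
  have h2 := A.hasSum h1
  have h3 := B.hasSum h1
  have h4 : (fun i => A (lp.single 1 i (x i))) = fun i => B (lp.single 1 i (x i)) := by
    funext i
    have h5 : lp.single 1 i (x i) = x i • e i := by
      unfold e
      rw [← lp.single_smul, smul_eq_mul, mul_one]
    rw [h5, map_smul, map_smul, h i]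
  have h6 : HasSum (fun i => A (lp.single 1 i (x i))) (B x) := by rw [h4]; exact h3
  exact h2.unique h6

theorem eventually_ne : ∀ᶠ n in (hyperfilter ℕ : Filter ℕ), n ≠ 0 := by
  have h : ∀ᶠ n in (cofinite : Filter ℕ), n ≠ 0 := by
    rw [Nat.cofinite_eq_atTop]
    exact eventually_ne_atTop 0
  exact hyperfilter_le_cofinite h

end LBaux

open LBaux in
theorem lb (h : S_LA) : S_LB := by
  refine ⟨P, ⟨1, fun f K hK => ?_⟩, fun φ hφ => ?_, fun g f f' hff x => ?_⟩
  · rw [one_mul]
    refine ContinuousLinearMap.opNorm_le_bound _ K.2 fun x => ?_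
    exact tsum_bound (fun i => (ph_spec hK i).2) x
  · apply ext_e
    intro i
    change fn ⟨φ, hφ⟩ (e i) = φ (e i)
    rw [fn_e]
    apply ph_eq
    refine tendsto_const_nhds.congr' ?_
    filter_upwards [eventually_ne] with n hn
    have hn0 : (n : ℝ) ≠ 0 := by exact_mod_cast hn
    unfold qq
    rw [map_neg, map_smul, smul_eq_mul]
    field_simp
    ring
  · obtain ⟨σ, s, hs, hg⟩ := h g
    have key : fn f' = (fn f).comp (g.toContinuousLinearEquiv : X1 →L[ℝ] X1) := by
      apply ext_e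
      intro i
      have h1 : ((fn f).comp (g.toContinuousLinearEquiv : X1 →L[ℝ] X1)) (e i) =
          fn f (g (e i)) := rfl
      have h2 : g (e i) = s i • e (σ i) := hg i
      rw [h1, h2, map_smul, fn_e, fn_e, smul_eq_mul]
      obtain ⟨K, hK⟩ := f.2.2
      apply ph_eq
      refine ((ph_spec hK (σ i)).1.const_mul (s i)).congr fun n => ?_
      have e1 : f'.1 ((n : ℝ) • e i) = f.1 (s i • ((n : ℝ) • e (σ i))) := by
        have h5 : g ((n : ℝ) • e i) = s i • ((n : ℝ) • e (σ i)) := by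
          rw [map_smul, h2, smul_comm]
        rw [hff]
        change f.1 (g ((n : ℝ) • e i)) = _
        rw [h5]
      have e2 : f'.1 (-((n : ℝ) • e i)) = f.1 (-(s i • ((n : ℝ) • e (σ i)))) := by
        have h5 : g (-((n : ℝ) • e i)) = -(s i • ((n : ℝ) • e (σ i))) := by
          rw [map_neg, map_smul, h2, smul_comm]
        rw [hff]
        change f.1 (g (-((n : ℝ) • e i))) = _
        rw [h5]
      unfold qq
      rw [e1, e2]
      rcases hs i with h3 | h3 <;> rw [h3]
      · rw [one_smul, one_mul]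
      · rw [neg_one_smul, neg_neg]
        ring
    change fn f' x = fn f (g.toContinuousLinearEquiv x)
    rw [key]
    rfl

end Pool.Agent.R722.LP
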