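import Pool.Agent.R722.LP.Stm

/-! Piece LP-LIP. -/

set_option autoImplicit false

namespace Pool.Agent.R722.LP.Lip

open MeasureTheory Pool.Agent.R514.SP
open scoped ENNReal NNReal

instance sfin : SFinite mu := by unfold mu; infer_instance

/-- normalised density -/
noncomputable def D (p : ℝ≥0∞) [Fact (1 ≤ p)] (x : Lp ℝ p mu) (ω : Om) : ℝ :=
  |(x : Om → ℝ) ω| ^ p.toReal / ‖x‖ ^ p.toReal

/-- inner integral -/
noncomputable def G (p : ℝ≥0∞) [Fact (1 ≤ p)] (W : Set (Om × Om)) (x : Lp ℝ p mu) (ω : Om) : ℝ :=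
  ∫ ω', W.indicator (fun q => D p x q.2) (ω, ω') ∂mu

/-- the zeroth torus -/
def S0 : Set Om := {ω | ω.2 = 0}

theorem measS0 : MeasurableSet S0 := measurable_snd (measurableSet_singleton 0)

theorem muS0 : mu S0 = 1 := by
  have h : S0 = Set.univ ×ˢ {(0 : ℕ)} := by
    ext ω; simp [S0]
  rw [h, mu, Measure.prod_prod]
  have h2 : (volume : Measure TT) Set.univ = 1 := by
    rw [Measure.volume_eq_prod, ← Set.univ_prod_univ, Measure.prod_prod]
    simp
  rw [h2]
  simp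

instance probS0 : IsProbabilityMeasure (mu.restrict S0) := ⟨by
  rw [Measure.restrict_apply MeasurableSet.univ, Set.univ_inter, muS0]⟩

variable {p : ℝ≥0∞} [hp1 : Fact (1 ≤ p)]

theorem pne0 : p ≠ 0 := (lt_of_lt_of_le zero_lt_one hp1.out).ne'

theorem ppos (hp : p ≠ ∞) : 0 < p.toReal := ENNReal.toReal_pos pne0 hp

theorem D_nonneg (x : Lp ℝ p mu) (ω : Om) : 0 ≤ D p x ω := by unfold D; positivity

theorem D_int (hp : p ≠ ∞) (x : Lp ℝ p mu) : Integrable (D p x) mu := by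
  have h := (Lp.memLp x).integrable_norm_rpow pne0 hp
  have := h.div_const (‖x‖ ^ p.toReal)
  simp only [Real.norm_eq_abs] at this
  exact this

theorem D_le_one (hp : p ≠ ∞) (x : Lp ℝ p mu) : ∫ ω, D p x ω ∂mu ≤ 1 := by
  have h := (Lp.memLp x).eLpNorm_eq_integral_rpow_norm pne0 hp
  have h1 : ‖x‖ = (∫ a, ‖(x : Om → ℝ) a‖ ^ p.toReal ∂mu) ^ (p.toReal)⁻¹ := by
    rw [Lp.norm_def, h, ENNReal.toReal_ofReal]
    positivity
  have h0 : (0:ℝ) ≤ ∫ a, ‖(x : Om → ℝ) a‖ ^ p.toReal ∂mu :=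
    integral_nonneg fun a => by positivity
  have h2 : ‖x‖ ^ p.toReal = ∫ a, |(x : Om → ℝ) a| ^ p.toReal ∂mu := by
    rw [h1, ← Real.rpow_mul h0, inv_mul_cancel₀ (ppos hp).ne', Real.rpow_one]
    simp [Real.norm_eq_abs]
  unfold D
  rw [integral_div, ← h2]
  exact div_self_le_one _

theorem D_sm (x : Lp ℝ p mu) : StronglyMeasurable (D p x) := by
  have h := (Lp.stronglyMeasurable x).norm.measurable
  have h2 : Measurable (D p x) := by
    unfold D
    exact ((h.pow_const _).div_const _)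
  exact h2.stronglyMeasurable

theorem G_sm {W : Set (Om × Om)} (hW : MeasurableSet W) (x : Lp ℝ p mu) :
    StronglyMeasurable (G p W x) := by
  have h : StronglyMeasurable (W.indicator (fun q : Om × Om => D p x q.2)) :=
    ((D_sm x).comp_measurable measurable_snd).indicator hW
  exact h.integral_prod_right'

theorem ind_int (hp : p ≠ ∞) {W : Set (Om × Om)} (hW : MeasurableSet W) (x : Lp ℝ p mu) (ω : Om) :
    Integrable (fun ω' => W.indicator (fun q => D p x q.2) (ω, ω')) mu := by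
  have hm : MeasurableSet {ω' | (ω, ω') ∈ W} := measurable_prodMk_left hW
  have := (D_int hp x).indicator hm
  refine this.congr (Filter.Eventually.of_forall fun ω' => ?_)
  by_cases h : (ω, ω') ∈ W <;> simp [Set.indicator, h]

theorem G_nonneg (W : Set (Om × Om)) (x : Lp ℝ p mu) (ω : Om) : 0 ≤ G p W x ω :=
  integral_nonneg fun _ => Set.indicator_nonneg (fun q _ => D_nonneg x q.2) _

theorem G_le (hp : p ≠ ∞) {W : Set (Om × Om)} (hW : MeasurableSet W) (x : Lp ℝ p mu) (ω : Om) :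
    G p W x ω ≤ 1 := by
  refine le_trans (integral_mono (ind_int hp hW x ω) (D_int hp x) fun ω' => ?_) (D_le_one hp x)
  by_cases h : (ω, ω') ∈ W
  · simp [Set.indicator, h]
  · simpa [Set.indicator, h] using D_nonneg x ω'

theorem G_sub (hp : p ≠ ∞) {W : Set (Om × Om)} (hW : MeasurableSet W) (x y : Lp ℝ p mu) (ω : Om) :
    |G p W x ω - G p W y ω| ≤ ∫ ω', |D p x ω' - D p y ω'| ∂mu := by
  unfold G
  rw [← integral_sub (ind_int hp hW x ω) (ind_int hp hW y ω)]
  refine le_trans (abs_integral_le_integral_abs) ?_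
  refine integral_mono (((ind_int hp hW x ω).sub (ind_int hp hW y ω)).abs)
    (((D_int hp x).sub (D_int hp y)).abs) fun ω' => ?_
  by_cases h : (ω, ω') ∈ W
  · simp [Set.indicator, h]
  · simp [Set.indicator, h]

theorem G_zero {W : Set (Om × Om)} (hA : Adm W) (x : Lp ℝ p mu) (ω : Om) (h : ω ∉ S0) :
    G p W x ω = 0 := by
  unfold G
  have : ∀ ω', W.indicator (fun q : Om × Om => D p x q.2) (ω, ω') = 0 := fun ω' => by
    apply Set.indicator_of_notMem
    intro hq
    exact h (hA.2 _ hq)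
  simp [this]

theorem F_eq {W : Set (Om × Om)} (hA : Adm W) (x : Lp ℝ p mu) :
    FW p W x = ∫ ω in S0, (x : Om → ℝ) ω * G p W x ω ∂mu := by
  rw [setIntegral_eq_integral_of_forall_compl_eq_zero (fun ω h => by rw [G_zero hA x ω h, mul_zero])]
  unfold FW
  rw [← integral_div]
  congr 1
  ext ω
  unfold G
  rw [← integral_const_mul, ← integral_div]
  congr 1
  ext ω'
  by_cases h : (ω, ω') ∈ W
  · simp only [Set.indicator, h, if_true, D]; ring
  · simp [Set.indicator, h]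

theorem memLp1 (x : Lp ℝ p mu) : MemLp (x : Om → ℝ) 1 (mu.restrict S0) :=
  ((Lp.memLp x).restrict S0).mono_exponent hp1.out

theorem int0 (x : Lp ℝ p mu) : Integrable (x : Om → ℝ) (mu.restrict S0) :=
  memLp_one_iff_integrable.1 (memLp1 x)

theorem int0_le (x : Lp ℝ p mu) : ∫ ω in S0, |(x : Om → ℝ) ω| ∂mu ≤ ‖x‖ := by
  have h1 : eLpNorm (x : Om → ℝ) 1 (mu.restrict S0) ≤ eLpNorm (x : Om → ℝ) p mu :=
    (eLpNorm_le_eLpNorm_of_exponent_le hp1.out (memLp1 x).1).trans
      (eLpNorm_mono_measure _ Measure.restrict_le_self)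
  have h2 : ∫ ω in S0, |(x : Om → ℝ) ω| ∂mu = (eLpNorm (x : Om → ℝ) 1 (mu.restrict S0)).toReal := by
    rw [eLpNorm_one_eq_lintegral_enorm]
    have := integral_norm_eq_lintegral_enorm (int0 x).1
    simpa [Real.norm_eq_abs] using this
  rw [h2, Lp.norm_def]
  exact ENNReal.toReal_mono (Lp.memLp x).2.ne h1

theorem intG (hp : p ≠ ∞) {W : Set (Om × Om)} (hW : MeasurableSet W) (z x : Lp ℝ p mu) :
    Integrable (fun ω => (z : Om → ℝ) ω * G p W x ω) (mu.restrict S0) := by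
  refine (int0 z).mul_bdd (c := 1) (G_sm hW x).aestronglyMeasurable
    (Filter.Eventually.of_forall fun ω => ?_)
  rw [Real.norm_eq_abs, abs_of_nonneg (G_nonneg W x ω)]
  exact G_le hp hW x ω

theorem F_le (hp : p ≠ ∞) {W : Set (Om × Om)} (hA : Adm W) (x : Lp ℝ p mu) :
    |FW p W x| ≤ ‖x‖ := by
  rw [F_eq hA]
  refine (abs_integral_le_integral_abs).trans (le_trans ?_ (int0_le x))
  refine integral_mono (intG hp hA.1 x x).abs (int0 x).abs fun ω => ?_
  simp only [abs_mul]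
  rw [abs_of_nonneg (G_nonneg W x ω)]
  exact mul_le_of_le_one_right (abs_nonneg _) (G_le hp hA.1 x ω)

theorem F_zero (hp : p ≠ ∞) {W : Set (Om × Om)} (hA : Adm W) : FW p W (0 : Lp ℝ p mu) = 0 := by
  have h := F_le hp hA (0 : Lp ℝ p mu)
  rw [norm_zero] at h
  exact abs_nonpos_iff.1 h

theorem F_sub (hp : p ≠ ∞) {W : Set (Om × Om)} (hA : Adm W) (x y : Lp ℝ p mu) (e : ℝ) 
    (he : ∫ ω', |D p x ω' - D p y ω'| ∂mu ≤ e) :
    |FW p W x - FW p W y| ≤ ‖x - y‖ + ‖y‖ * e := by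
  have hsub : ((x - y : Lp ℝ p mu) : Om → ℝ) =ᵐ[mu.restrict S0] fun ω => 
      (x : Om → ℝ) ω - (y : Om → ℝ) ω := ae_restrict_of_ae (Lp.coeFn_sub x y)
  rw [F_eq hA, F_eq hA, ← integral_sub (intG hp hA.1 x x) (intG hp hA.1 y y)]
  refine (abs_integral_le_integral_abs).trans ?_
  have h3 : ∫ ω in S0, |(x : Om → ℝ) ω * G p W x ω - (y : Om → ℝ) ω * G p W y ω| ∂mu ≤
      ∫ ω in S0, (|((x - y : Lp ℝ p mu) : Om → ℝ) ω| + |(y : Om → ℝ) ω| * e) ∂mu := by
    refine integral_mono_ae ((intG hp hA.1 x x).sub (intG hp hA.1 y y)).abs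
      ((int0 (x - y)).abs.add ((int0 y).abs.mul_const e)) ?_
    filter_upwards [hsub] with ω hω
    rw [hω]
    have e1 : (x : Om → ℝ) ω * G p W x ω - (y : Om → ℝ) ω * G p W y ω =
      ((x : Om → ℝ) ω - (y : Om → ℝ) ω) * G p W x ω + (y : Om → ℝ) ω * (G p W x ω - G p W y ω) := by
      ring
    rw [e1]
    refine (abs_add_le _ _).trans (add_le_add ?_ ?_)
    · rw [abs_mul, abs_of_nonneg (G_nonneg W x ω)]
      exact mul_le_of_le_one_right (abs_nonneg _) (G_le hp hA.1 x ω)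
    · rw [abs_mul]
      exact mul_le_mul_of_nonneg_left ((G_sub hp hA.1 x y ω).trans he) (abs_nonneg _)
  refine h3.trans ?_
  rw [integral_add (int0 (x - y)).abs ((int0 y).abs.mul_const e), integral_mul_const]
  have he0 : 0 ≤ e := le_trans (integral_nonneg fun ω => abs_nonneg _) he
  exact add_le_add (int0_le _) (mul_le_mul_of_nonneg_right (int0_le _) he0)

end Pool.Agent.R722.LP.Lip

namespace Pool.Agent.R722.LP

open MeasureTheory Pool.Agent.R514.SP Lip
open scoped ENNReal NNReal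

/-- piece LP-LIP -/
theorem lip (h : S_DEN) : S_LIP := by
  intro p hp1 hp W hA
  obtain ⟨c, hc, hden⟩ := h p hp
  refine ⟨F_zero hp hA, ⟨(1 + c).toNNReal, LipschitzWith.of_dist_le_mul fun x y => ?_⟩⟩
  rw [Real.coe_toNNReal _ (by linarith), Real.dist_eq, dist_eq_norm]
  have hn : ‖x - y‖ ≤ (1 + c) * ‖x - y‖ := by nlinarith [norm_nonneg (x - y)]
  by_cases hy : y = 0
  · subst hy
    rw [F_zero hp hA, sub_zero]
    rw [sub_zero] at hn ⊢
    exact (F_le hp hA x).trans hn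
  by_cases hx : x = 0
  · subst hx
    rw [F_zero hp hA, zero_sub, abs_neg]
    rw [zero_sub, norm_neg] at hn ⊢
    exact (F_le hp hA y).trans hn
  have h1 := F_sub hp hA x y _ (hden x y hx hy)
  have h2 : ‖y‖ * (c * ‖x - y‖ / ‖y‖) = c * ‖x - y‖ := by
    have : ‖y‖ ≠ 0 := norm_ne_zero_iff.2 hy
    field_simp
  rw [h2] at h1
  linarith

end Pool.Agent.R722.LP
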