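import Pool.Agent.R722.LP.Stm

/-! # Piece LP-M1: the set function -/

set_option autoImplicit false

namespace Pool.Agent.R722.LP

open MeasureTheory Pool.Agent.R514.SP
open scoped ENNReal NNReal

namespace M1aux

theorem sf : SFinite mu := by
  unfold mu
  infer_instance

theorem wK_adm {K : Set (TT × TT)} (hK : MeasurableSet K) : Adm (wK K) := by
  refine ⟨?_, fun q hq => hq.1⟩
  have h1 : MeasurableSet {q : Om × Om | q.1.2 = 0} :=
    (measurable_snd.comp measurable_fst) (measurableSet_singleton (0 : ℕ))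
  have h2 : MeasurableSet {q : Om × Om | (q.1.1, q.2.1) ∈ K} :=
    ((measurable_fst.comp measurable_fst).prodMk (measurable_fst.comp measurable_snd)) hK
  exact h1.inter h2

theorem wK_null {K : Set (TT × TT)} (hK : (volume : Measure (TT × TT)) K = 0) :
    (mu.prod mu) (wK K) = 0 := by
  have := sf
  have h1 : Measure.QuasiMeasurePreserving (Prod.fst : Om → TT) mu volume := by
    unfold mu
    exact Measure.quasiMeasurePreserving_fst
  have h2 : Measure.QuasiMeasurePreserving (Prod.map (Prod.fst : Om → TT) (Prod.fst : Om → TT))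
      (mu.prod mu) ((volume : Measure TT).prod volume) := MeasureTheory.QuasiMeasurePreserving.prodMap h1 h1
  have h3 : (mu.prod mu) ((Prod.map (Prod.fst : Om → TT) (Prod.fst : Om → TT)) ⁻¹' K) = 0 :=
    h2.preimage_null hK
  exact measure_mono_null (fun q hq => hq.2) h3

theorem Mf_eq {p : ℝ≥0∞} [Fact (1 ≤ p)] {P : MapsToDual (Lp ℝ p mu)} {v : Lp ℝ p mu}
    {K : Set (TT × TT)} (h : FW p (wK K) ∈ Lip0 (Lp ℝ p mu)) :
    Mf p P v K = P ⟨FW p (wK K), h⟩ v := by
  unfold Mf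
  rw [dif_pos h]

end M1aux

open M1aux in
theorem m1 (h1 : S_LIP) (h2 : S_ADD) (h3 : S_COMP) : S_M1 := by
  intro p _ hp P hP v hv
  have hL : ∀ K, MeasurableSet K → FW p (wK K) ∈ Lip0 (Lp ℝ p mu) :=
    fun K hK => h1 p hp (wK K) (wK_adm hK)
  refine ⟨?_, ?_, ?_, ?_⟩
  · intro K K' hK hK' hd
    rw [Mf_eq (hL _ (hK.union hK')), Mf_eq (hL K hK), Mf_eq (hL K' hK')]
    have hu : wK (K ∪ K') = wK K ∪ wK K' := by
      ext q
      constructor
      · rintro ⟨ha, hb | hb⟩
        · exact Or.inl ⟨ha, hb⟩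
        · exact Or.inr ⟨ha, hb⟩
      · rintro (⟨ha, hb⟩ | ⟨ha, hb⟩)
        · exact ⟨ha, Or.inl hb⟩
        · exact ⟨ha, Or.inr hb⟩
    have hdis : Disjoint (wK K) (wK K') := by
      rw [Set.disjoint_left]
      intro q ha hb
      exact Set.disjoint_left.1 hd ha.2 hb.2
    have he : (⟨FW p (wK (K ∪ K')), hL _ (hK.union hK')⟩ : Lip0 (Lp ℝ p mu)) =
        ⟨FW p (wK K), hL K hK⟩ + ⟨FW p (wK K'), hL K' hK'⟩ := by
      apply Subtype.ext
      funext x
      show FW p (wK (K ∪ K')) x = FW p (wK K) x + FW p (wK K') x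
      rw [hu]
      exact (h2 p hp).1 _ _ (wK_adm hK) (wK_adm hK') hdis x
    rw [he, map_add]
    rfl
  · intro K hK h0
    rw [Mf_eq (hL K hK)]
    have he : (⟨FW p (wK K), hL K hK⟩ : Lip0 (Lp ℝ p mu)) = 0 := by
      apply Subtype.ext
      funext x
      show FW p (wK K) x = 0
      exact (h2 p hp).2.1 _ (wK_adm hK) (wK_null h0) x
    rw [he, map_zero]
    rfl
  · rw [Mf_eq (hL _ MeasurableSet.univ)]
    obtain ⟨φ, hφ, hφ1⟩ := (h2 p hp).2.2
    have hw : wK Set.univ = {q : Om × Om | q.1.2 = 0} := by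
      ext q
      exact ⟨fun h => h.1, fun h => ⟨h, trivial⟩⟩
    have hf : FW p (wK Set.univ) = ⇑φ := by
      funext x
      rw [hw, hφ]
    have hφL : ⇑φ ∈ Lip0 (Lp ℝ p mu) := by
      rw [← hf]
      exact hL _ MeasurableSet.univ
    have he : (⟨FW p (wK Set.univ), hL _ MeasurableSet.univ⟩ : Lip0 (Lp ℝ p mu)) =
        ⟨⇑φ, hφL⟩ := Subtype.ext hf
    rw [he, hP.1 φ hφL]
    exact hφ1 v hv
  · intro g hg K hK
    have hK' : MeasurableSet {q : TT × TT | (g q.1, g q.2) ∈ K} :=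
      ((g.measurable.comp measurable_fst).prodMk (g.measurable.comp measurable_snd)) hK
    rw [Mf_eq (hL _ hK'), Mf_eq (hL K hK)]
    let φ : Om ≃ᵐ Om := MeasurableEquiv.prodCongr g (MeasurableEquiv.refl ℕ)
    have hφ : MeasurePreserving φ mu mu := by
      have h4 : MeasurePreserving (Prod.map g (id : ℕ → ℕ))
          ((volume : Measure TT).prod Measure.count) ((volume : Measure TT).prod Measure.count) :=
        hg.prod (MeasurePreserving.id _)
      exact h4
    obtain ⟨T, hT1, hT2⟩ := h3 p hp φ hφ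
    have hTv : T v = v := by
      apply Lp.ext
      have h4 : (fun ω => (v : Om → ℝ) (φ ω)) =ᵐ[mu]
          fun ω => Set.indicator (Set.univ ×ˢ {0}) (fun _ => (1 : ℝ)) (φ ω) :=
        hφ.quasiMeasurePreserving.ae_eq_comp hv
      have h5 : (fun ω : Om => Set.indicator ((Set.univ : Set TT) ×ˢ ({0} : Set ℕ))
          (fun _ => (1 : ℝ)) (φ ω)) =
          Set.indicator ((Set.univ : Set TT) ×ˢ ({0} : Set ℕ)) (fun _ => (1 : ℝ)) := by
        funext ω
        have h6 : φ ω ∈ ((Set.univ : Set TT) ×ˢ ({0} : Set ℕ)) ↔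
            ω ∈ ((Set.univ : Set TT) ×ˢ ({0} : Set ℕ)) := Iff.rfl
        by_cases h7 : ω ∈ ((Set.univ : Set TT) ×ˢ ({0} : Set ℕ))
        · rw [Set.indicator_of_mem h7, Set.indicator_of_mem (h6.2 h7)]
        · rw [Set.indicator_of_notMem h7, Set.indicator_of_notMem (fun h => h7 (h6.1 h))]
      rw [h5] at h4
      exact ((hT1 v).trans h4).trans hv.symm
    have hcomp : ∀ x, FW p (wK K) x = FW p (wK {q : TT × TT | (g q.1, g q.2) ∈ K}) (T x) := by
      intro x
      rw [hT2 _ (wK_adm hK') x]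
      congr 1
      ext q
      show _ ↔ q.1.2 = 0 ∧ (g (g.symm q.1.1), g (g.symm q.2.1)) ∈ K
      rw [g.apply_symm_apply, g.apply_symm_apply]
      rfl
    have h4 := hP.2 T ⟨_, hL _ hK'⟩ ⟨_, hL K hK⟩ hcomp v
    have h5 : T.toContinuousLinearEquiv v = v := hTv
    rw [h5] at h4
    exact h4.symm

end Pool.Agent.R722.LP
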