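import Pool.Agent.R722.LP.Stm

/-!
# MP_32ff52_an (project LP): piece M2
-/

set_option autoImplicit false

namespace Pool.Agent.R722.LP

open MeasureTheory Pool.Agent.R514.SP
open scoped ENNReal NNReal

namespace M2P

open Classical in
/-- `P (F_W) (x)` -/
noncomputable def PF (p : ℝ≥0∞) [Fact (1 ≤ p)] (P : MapsToDual (Lp ℝ p mu))
    (W : Set (Om × Om)) (x : Lp ℝ p mu) : ℝ :=
  if h : FW p W ∈ Lip0 (Lp ℝ p mu) then P ⟨FW p W, h⟩ x else 0

section

variable {p : ℝ≥0∞} [Fact (1 ≤ p)] {P : MapsToDual (Lp ℝ p mu)}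

lemma PF_eq {W : Set (Om × Om)} (h : FW p W ∈ Lip0 (Lp ℝ p mu)) (x : Lp ℝ p mu) :
    PF p P W x = P ⟨FW p W, h⟩ x := dif_pos h

lemma PF_union {W W' : Set (Om × Om)} (h1 : FW p W ∈ Lip0 (Lp ℝ p mu))
    (h2 : FW p W' ∈ Lip0 (Lp ℝ p mu)) (h3 : FW p (W ∪ W') ∈ Lip0 (Lp ℝ p mu))
    (h : ∀ x, FW p (W ∪ W') x = FW p W x + FW p W' x) (x : Lp ℝ p mu) :
    PF p P (W ∪ W') x = PF p P W x + PF p P W' x := by
  rw [PF_eq h1, PF_eq h2, PF_eq h3]
  have h4 : (⟨FW p (W ∪ W'), h3⟩ : Lip0 (Lp ℝ p mu)) = ⟨FW p W, h1⟩ + ⟨FW p W', h2⟩ :=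
    Subtype.ext (funext h)
  rw [h4, map_add]
  rfl

lemma PF_comm (hP : HP P) (T : Lp ℝ p mu ≃ₗᵢ[ℝ] Lp ℝ p mu) {W W' : Set (Om × Om)}
    (h1 : FW p W ∈ Lip0 (Lp ℝ p mu)) (h2 : FW p W' ∈ Lip0 (Lp ℝ p mu))
    (h : ∀ x, FW p W (T x) = FW p W' x) (x : Lp ℝ p mu) :
    PF p P W' x = PF p P W (T x) := by
  rw [PF_eq h1, PF_eq h2]
  exact hP.2 T ⟨FW p W, h1⟩ ⟨FW p W', h2⟩ (fun y => (h y).symm) x

end

/-- the kernel of `K` with second variable in the tori of `E` -/
def WE (K : Set (TT × TT)) (E : Set ℕ) : Set (Om × Om) :=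
  {q | q.1.2 = 0 ∧ (q.1.1, q.2.1) ∈ K ∧ q.2.2 ∈ E}

lemma adm_WE {K : Set (TT × TT)} (hK : MeasurableSet K) (E : Set ℕ) : Adm (WE K E) := by
  refine ⟨?_, fun q hq => hq.1⟩
  have m1 : Measurable (fun q : Om × Om => q.1.2) := measurable_snd.comp measurable_fst
  have m2 : Measurable (fun q : Om × Om => (q.1.1, q.2.1)) :=
    (measurable_fst.comp measurable_fst).prodMk (measurable_fst.comp measurable_snd)
  have m3 : Measurable (fun q : Om × Om => q.2.2) := measurable_snd.comp measurable_snd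
  exact (m1 (measurableSet_singleton 0)).inter
    ((m2 hK).inter (m3 (MeasurableSet.of_discrete (s := E))))

lemma wK_eq (K : Set (TT × TT)) : wK K = WE K Set.univ := by
  ext q
  simp [wK, WE]

lemma WE_union (K : Set (TT × TT)) (E E' : Set ℕ) : WE K (E ∪ E') = WE K E ∪ WE K E' := by
  ext q
  simp only [WE, Set.mem_ofPred_eq, Set.mem_union]
  tauto

lemma WE_disj (K : Set (TT × TT)) {E E' : Set ℕ} (h : Disjoint E E') :
    Disjoint (WE K E) (WE K E') := by
  rw [Set.disjoint_left] at h ⊢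
  intro q hq hq'
  exact h hq.2.2 hq'.2.2

/-! ### Permutations of the tori over `D` -/

open Classical in
/-- permute the tori over `D` -/
noncomputable def phi (D : Set TT) (hD : MeasurableSet D) (s : Equiv.Perm ℕ) : Om ≃ᵐ Om where
  toFun ω := (ω.1, if ω.1 ∈ D then s ω.2 else ω.2)
  invFun ω := (ω.1, if ω.1 ∈ D then s.symm ω.2 else ω.2)
  left_inv ω := by
    rcases ω with ⟨t, z⟩
    by_cases h : t ∈ D <;> simp [h]
  right_inv ω := by
    rcases ω with ⟨t, z⟩
    by_cases h : t ∈ D <;> simp [h]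
  measurable_toFun := by
    refine measurable_fst.prodMk (Measurable.ite (measurable_fst hD) ?_ measurable_snd)
    exact (measurable_of_countable s).comp measurable_snd
  measurable_invFun := by
    refine measurable_fst.prodMk (Measurable.ite (measurable_fst hD) ?_ measurable_snd)
    exact (measurable_of_countable s.symm).comp measurable_snd

lemma map_count (s : Equiv.Perm ℕ) :
    Measure.map s (Measure.count : Measure ℕ) = Measure.count := by
  ext A hA
  rw [Measure.map_apply (measurable_of_countable s) hA]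
  have h1 : s ⁻¹' A = s.symm '' A := by
    ext x
    simp only [Set.mem_preimage, Set.mem_image]
    constructor
    · intro h
      exact ⟨s x, h, by simp⟩
    · rintro ⟨y, hy, rfl⟩
      simpa using hy
  rw [h1]
  exact Measure.count_injective_image s.symm.injective A

open Classical in
lemma phi_mp (D : Set TT) (hD : MeasurableSet D) (s : Equiv.Perm ℕ) :
    MeasurePreserving (phi D hD s) mu mu := by
  have hm : Measurable (Function.uncurry fun (t : TT) (z : ℕ) => if t ∈ D then s z else z) := by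
    refine Measurable.ite (measurable_fst hD) ?_ measurable_snd
    exact (measurable_of_countable s).comp measurable_snd
  exact MeasurePreserving.skew_product (μa := (volume : Measure TT)) (μb := (volume : Measure TT))
    (μc := Measure.count) (μd := Measure.count) (MeasurePreserving.id volume)
    (g := fun (t : TT) (z : ℕ) => if t ∈ D then s z else z) hm
    (Filter.Eventually.of_forall fun t => by
      by_cases h : t ∈ D
      · simp only [h, if_true]
        exact map_count s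
      · simp only [h, if_false]
        exact Measure.map_id)

lemma preim {C D : Set TT} (hD : MeasurableSet D) {K : Set (TT × TT)} (hCD : Disjoint C D)
    (hK : K ⊆ C ×ˢ D) (s : Equiv.Perm ℕ) (E : Set ℕ) :
    {q : Om × Om | ((phi D hD s).symm q.1, (phi D hD s).symm q.2) ∈ WE K E} =
      WE K {z | s.symm z ∈ E} := by
  ext ⟨⟨t, z⟩, ⟨t', z'⟩⟩
  have e1 : ∀ (t : TT) (z : ℕ), ((phi D hD s).symm (t, z)).1 = t := fun t z => rfl
  have e2 : ∀ (t : TT) (z : ℕ), t ∈ D → ((phi D hD s).symm (t, z)).2 = s.symm z :=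
    fun t z h => if_pos h
  have e3 : ∀ (t : TT) (z : ℕ), t ∉ D → ((phi D hD s).symm (t, z)).2 = z :=
    fun t z h => if_neg h
  simp only [WE, Set.mem_ofPred_eq, e1]
  constructor
  · rintro ⟨h1, h2, h3⟩
    obtain ⟨hC, hD'⟩ := hK h2
    have hnD : t ∉ D := Set.disjoint_left.1 hCD hC
    rw [e3 t z hnD] at h1
    rw [e2 t' z' hD'] at h3
    exact ⟨h1, h2, h3⟩
  · rintro ⟨h1, h2, h3⟩
    obtain ⟨hC, hD'⟩ := hK h2
    have hnD : t ∉ D := Set.disjoint_left.1 hCD hC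
    rw [e3 t z hnD, e2 t' z' hD']
    exact ⟨h1, h2, h3⟩

lemma fix_v {p : ℝ≥0∞} [Fact (1 ≤ p)] {C D : Set TT} (hD : MeasurableSet D)
    (hCD : Disjoint C D) (s : Equiv.Perm ℕ) {vC : Lp ℝ p mu} (hv : IsV p C vC)
    (T : Lp ℝ p mu ≃ₗᵢ[ℝ] Lp ℝ p mu)
    (hT : ∀ x, (T x : Om → ℝ) =ᵐ[mu] fun ω => (x : Om → ℝ) (phi D hD s ω)) : T vC = vC := by
  apply Lp.ext
  have h1 := (phi_mp D hD s).quasiMeasurePreserving.ae hv
  filter_upwards [hT vC, hv, h1] with ω h2 h3 h4
  rw [h2, h4, h3]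
  rcases ω with ⟨t, z⟩
  by_cases hC : t ∈ C
  · have hnD : t ∉ D := Set.disjoint_left.1 hCD hC
    have : phi D hD s (t, z) = (t, z) := Prod.ext rfl (if_neg hnD)
    rw [this]
  · rw [Set.indicator_of_notMem, Set.indicator_of_notMem]
    · exact fun h => hC h.1
    · exact fun h => hC h.1

/-! ### Permutations of the natural numbers -/

/-- exchange `0` and `1` modulo `3` -/
def f01 (z : ℕ) : ℕ := if z % 3 = 0 then z + 1 else if z % 3 = 1 then z - 1 else z

lemma f01_inv (z : ℕ) : f01 (f01 z) = z := by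
  unfold f01
  split_ifs <;> omega

/-- exchange `0` and `2` modulo `3` -/
def f02 (z : ℕ) : ℕ := if z % 3 = 0 then z + 2 else if z % 3 = 2 then z - 2 else z

lemma f02_inv (z : ℕ) : f02 (f02 z) = z := by
  unfold f02
  split_ifs <;> omega

/-- multiples of `3` to the numbers `0` or `1` modulo `3` -/
def f3 (z : ℕ) : ℕ := if z % 3 = 0 then (if z % 2 = 0 then 3 * (z / 6) else 3 * (z / 6) + 1)
  else if z % 3 = 1 then 3 * (2 * (z / 3)) + 2 else 3 * (2 * (z / 3) + 1) + 2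

/-- the inverse of `f3` -/
def g3 (y : ℕ) : ℕ := if y % 3 = 0 then 3 * (2 * (y / 3)) else if y % 3 = 1 then
  3 * (2 * (y / 3) + 1) else (if (y / 3) % 2 = 0 then 3 * (y / 6) + 1 else 3 * (y / 6) + 2)

lemma g3_f3 (z : ℕ) : g3 (f3 z) = z := by
  unfold g3 f3
  split_ifs <;> omega

lemma f3_g3 (z : ℕ) : f3 (g3 z) = z := by
  unfold g3 f3
  split_ifs <;> omega

/-- exchange `0` and `1` modulo `3` -/
def s01 : Equiv.Perm ℕ := ⟨f01, f01, f01_inv, f01_inv⟩

/-- exchange `0` and `2` modulo `3` -/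
def s02 : Equiv.Perm ℕ := ⟨f02, f02, f02_inv, f02_inv⟩

/-- multiples of `3` to the numbers `0` or `1` modulo `3` -/
def s3 : Equiv.Perm ℕ := ⟨f3, g3, g3_f3, f3_g3⟩

/-- a residue class modulo `3` -/
def R (i : ℕ) : Set ℕ := {z | z % 3 = i}

lemma im01 : {z | s01.symm z ∈ R 0} = R 1 := by
  ext z
  show f01 z % 3 = 0 ↔ z % 3 = 1
  unfold f01
  split_ifs <;> omega

lemma im02 : {z | s02.symm z ∈ R 0} = R 2 := by
  ext z
  show f02 z % 3 = 0 ↔ z % 3 = 2
  unfold f02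
  split_ifs <;> omega

lemma im3 : {z | s3.symm z ∈ R 0} = R 0 ∪ R 1 := by
  ext z
  show g3 z % 3 = 0 ↔ (z % 3 = 0 ∨ z % 3 = 1)
  unfold g3
  split_ifs <;> omega

end M2P

theorem m2 (h1 : S_LIP) (h2 : S_ADD) (h3 : S_V) (h4 : S_COMP) (h5 : S_SIGN) : S_M2 := by
  intro p _ hp P hP v hv C D K hC hD hK hCD hKCD
  have hL := h1 p hp
  obtain ⟨hA, -, -⟩ := h2 p hp
  obtain ⟨vC, hvC⟩ := h3 p hp C hC
  obtain ⟨vC', hvC'⟩ := h3 p hp Cᶜ hC.compl
  have hLW : ∀ E : Set ℕ, FW p (M2P.WE K E) ∈ Lip0 (Lp ℝ p mu) := fun E =>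
    hL _ (M2P.adm_WE hK E)
  have hMf : Mf p P v K = M2P.PF p P (M2P.WE K Set.univ) v := by
    unfold Mf M2P.PF
    rw [M2P.wK_eq]
  -- decomposition of `v`
  have hvsum : v = vC + vC' := by
    apply Lp.ext
    filter_upwards [Lp.coeFn_add vC vC', hv, hvC, hvC'] with ω e1 e2 e3 e4
    rw [e1, e2, Pi.add_apply, e3, e4]
    rcases ω with ⟨t, z⟩
    by_cases hz : z = 0
    · by_cases ht : t ∈ C
      · simp [Set.indicator, ht, hz]
      · simp [Set.indicator, ht, hz]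
    · simp [Set.indicator, hz]
  -- the part outside `C`
  have hzero : M2P.PF p P (M2P.WE K Set.univ) vC' = 0 := by
    have hB : MeasurableSet (Cᶜ ×ˢ (Set.univ : Set ℕ) : Set Om) := hC.compl.prod MeasurableSet.univ
    obtain ⟨T, hT1, hT2⟩ := h5 p hp _ hB
    have hTW := hT2 (M2P.WE K Set.univ) (M2P.adm_WE hK _) (by
      rintro q ⟨-, hq, -⟩ hqB
      exact hqB.1 (hKCD hq).1)
    have hTv : T vC' = -vC' := by
      apply Lp.ext
      filter_upwards [hT1 vC', Lp.coeFn_neg vC', hvC'] with ω e1 e2 e3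
      rw [e1, e2, Pi.neg_apply, e3]
      rcases ω with ⟨t, z⟩
      by_cases ht : t ∈ C
      · simp [Set.indicator, ht]
      · simp only [Set.indicator, Set.mem_prod, Set.mem_compl_iff, ht, not_false_eq_true,
          Set.mem_univ, and_self, if_true, true_and]
        split_ifs <;> norm_num
    have h6 := M2P.PF_comm hP T (hLW Set.univ) (hLW Set.univ) hTW vC'
    rw [hTv, M2P.PF_eq (hLW Set.univ) (-vC'), map_neg, ← M2P.PF_eq (hLW Set.univ) vC'] at h6
    linarith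
  -- the set function
  have hadd : ∀ E E' : Set ℕ, Disjoint E E' → M2P.PF p P (M2P.WE K (E ∪ E')) vC =
      M2P.PF p P (M2P.WE K E) vC + M2P.PF p P (M2P.WE K E') vC := by
    intro E E' hd
    have h6 := hLW (E ∪ E')
    rw [M2P.WE_union] at h6 ⊢
    exact M2P.PF_union (hLW E) (hLW E') h6
      (hA _ _ (M2P.adm_WE hK E) (M2P.adm_WE hK E') (M2P.WE_disj K hd)) vC
  have hperm : ∀ (s : Equiv.Perm ℕ) (E : Set ℕ), M2P.PF p P (M2P.WE K {z | s.symm z ∈ E}) vC =
      M2P.PF p P (M2P.WE K E) vC := by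
    intro s E
    obtain ⟨T, hT1, hT2⟩ := h4 p hp (M2P.phi D hD s) (M2P.phi_mp D hD s)
    have h6 := hT2 (M2P.WE K E) (M2P.adm_WE hK E)
    rw [M2P.preim hD hCD hKCD s E] at h6
    have h7 := M2P.PF_comm hP T (hLW E) (hLW _) h6 vC
    rw [M2P.fix_v hD hCD s hvC T hT1] at h7
    exact h7
  have e1 := hperm M2P.s01 (M2P.R 0)
  have e2 := hperm M2P.s02 (M2P.R 0)
  have e3 := hperm M2P.s3 (M2P.R 0)
  rw [M2P.im01] at e1
  rw [M2P.im02] at e2
  rw [M2P.im3, hadd _ _ (by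
    rw [Set.disjoint_left]
    intro z hz hz'
    have a1 : z % 3 = 0 := hz
    have a2 : z % 3 = 1 := hz'
    omega)] at e3
  have e4 : (Set.univ : Set ℕ) = (M2P.R 0 ∪ M2P.R 1) ∪ M2P.R 2 := by
    ext z
    simp only [Set.mem_univ, true_iff]
    show (z % 3 = 0 ∨ z % 3 = 1) ∨ z % 3 = 2
    omega
  have e5 := hadd (M2P.R 0 ∪ M2P.R 1) (M2P.R 2) (by
    rw [Set.disjoint_left]
    intro z hz hz'
    have a1 : z % 3 = 0 ∨ z % 3 = 1 := hz
    have a2 : z % 3 = 2 := hz'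
    omega)
  have e6 := hadd (M2P.R 0) (M2P.R 1) (by
    rw [Set.disjoint_left]
    intro z hz hz'
    have a1 : z % 3 = 0 := hz
    have a2 : z % 3 = 1 := hz'
    omega)
  rw [← e4] at e5
  have e7 : M2P.PF p P (M2P.WE K Set.univ) v = M2P.PF p P (M2P.WE K Set.univ) vC +
      M2P.PF p P (M2P.WE K Set.univ) vC' := by
    rw [hvsum, M2P.PF_eq (hLW Set.univ), M2P.PF_eq (hLW Set.univ), M2P.PF_eq (hLW Set.univ),
      map_add]
  rw [hMf, e7, hzero, e5, e6]
  linarith

end Pool.Agent.R722.LP
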