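import Pool.Agent.R722.LP.Stm

/-! Piece LP-SIGN: change of sign on a set. -/

set_option autoImplicit false

namespace Pool.Agent.R722.LP

open MeasureTheory Pool.Agent.R514.SP
open scoped ENNReal NNReal

namespace SIGN

/-- the sign function -/
noncomputable def sg (B : Set Om) (ω : Om) : ℝ := 1 - 2 * B.indicator (fun _ => (1 : ℝ)) ω

theorem sg_mem {B : Set Om} {ω : Om} (h : ω ∈ B) : sg B ω = -1 := by
  rw [sg, Set.indicator_of_mem h]
  norm_num

theorem sg_notMem {B : Set Om} {ω : Om} (h : ω ∉ B) : sg B ω = 1 := by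
  rw [sg, Set.indicator_of_notMem h]
  norm_num

theorem sg_abs (B : Set Om) (ω : Om) : |sg B ω| = 1 := by
  by_cases h : ω ∈ B
  · rw [sg_mem h, abs_neg, abs_one]
  · rw [sg_notMem h, abs_one]

theorem sg_sq (B : Set Om) (ω : Om) : sg B ω * sg B ω = 1 := by
  by_cases h : ω ∈ B
  · rw [sg_mem h]
    norm_num
  · rw [sg_notMem h]
    norm_num

theorem sg_meas {B : Set Om} (hB : MeasurableSet B) : Measurable (sg B) :=
  measurable_const.sub (measurable_const.mul (measurable_const.indicator hB))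

variable {p : ℝ≥0∞} [Fact (1 ≤ p)] {B : Set Om}

theorem memLp (hB : MeasurableSet B) (x : Lp ℝ p mu) :
    MemLp (fun ω => sg B ω * (x : Om → ℝ) ω) p mu := by
  refine (Lp.memLp x).of_le ?_ (Filter.Eventually.of_forall fun ω => ?_)
  · exact (sg_meas hB).aestronglyMeasurable.mul (Lp.aestronglyMeasurable x)
  · rw [norm_mul, Real.norm_eq_abs (sg B ω), sg_abs, one_mul]

/-- the operator -/
noncomputable def tfun (hB : MeasurableSet B) (x : Lp ℝ p mu) : Lp ℝ p mu := (memLp hB x).toLp _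

theorem tfun_ae (hB : MeasurableSet B) (x : Lp ℝ p mu) :
    (tfun hB x : Om → ℝ) =ᵐ[mu] fun ω => sg B ω * (x : Om → ℝ) ω := (memLp hB x).coeFn_toLp

/-- the operator as a linear map -/
noncomputable def tlin (hB : MeasurableSet B) : Lp ℝ p mu →ₗ[ℝ] Lp ℝ p mu where
  toFun := tfun hB
  map_add' := by
    intro x y
    apply Lp.ext
    filter_upwards [tfun_ae hB (x + y), tfun_ae hB x, tfun_ae hB y, Lp.coeFn_add x y,
      Lp.coeFn_add (tfun hB x) (tfun hB y)] with ω h1 h2 h3 h4 h5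
    rw [h1, h4, h5, Pi.add_apply, Pi.add_apply, h2, h3, mul_add]
  map_smul' := by
    intro c x
    apply Lp.ext
    filter_upwards [tfun_ae hB (c • x), tfun_ae hB x, Lp.coeFn_smul c x,
      Lp.coeFn_smul c (tfun hB x)] with ω h1 h2 h3 h4
    rw [RingHom.id_apply, h1, h3, h4, Pi.smul_apply, Pi.smul_apply, h2, smul_eq_mul, smul_eq_mul,
      mul_left_comm]

theorem invol (hB : MeasurableSet B) : Function.Involutive (tlin (p := p) hB) := by
  intro x
  apply Lp.ext
  filter_upwards [tfun_ae hB (tfun hB x), tfun_ae hB x] with ω h1 h2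
  change (tfun hB (tfun hB x) : Om → ℝ) ω = _
  rw [h1, h2, ← mul_assoc, sg_sq, one_mul]

theorem norm_eq (hB : MeasurableSet B) (x : Lp ℝ p mu) : ‖tfun hB x‖ = ‖x‖ := by
  rw [Lp.norm_def, Lp.norm_def]
  congr 1
  refine eLpNorm_congr_norm_ae ?_
  filter_upwards [tfun_ae hB x] with ω h1
  rw [h1, norm_mul, Real.norm_eq_abs (sg B ω), sg_abs, one_mul]

/-- the isometry -/
noncomputable def tiso (hB : MeasurableSet B) : Lp ℝ p mu ≃ₗᵢ[ℝ] Lp ℝ p mu where
  toLinearEquiv := LinearEquiv.ofInvolutive (tlin hB) (invol hB)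
  norm_map' := norm_eq hB

end SIGN

open SIGN in
theorem sign_ : S_SIGN := by
  intro p _ hp B hB
  refine ⟨tiso hB, fun x => tfun_ae hB x, fun W hW hWB x => ?_⟩
  have hT : (tiso hB x : Lp ℝ p mu) = tfun hB x := rfl
  rw [hT]
  unfold FW
  rw [norm_eq]
  congr 1
  refine integral_congr_ae ?_
  filter_upwards [tfun_ae hB x] with ω h1
  refine integral_congr_ae ?_
  filter_upwards [tfun_ae hB x] with ω' h2
  by_cases h : (ω, ω') ∈ W
  · rw [Set.indicator_of_mem h, Set.indicator_of_mem h, h1, h2, sg_notMem (hWB _ h), one_mul,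
      abs_mul, sg_abs, one_mul]
  · rw [Set.indicator_of_notMem h, Set.indicator_of_notMem h]

end Pool.Agent.R722.LP
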