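import Pool.Agent.R722.LP.Stm

/-! MP_32ff52_an, project LP, piece TOR. -/

set_option autoImplicit false

namespace Pool.Agent.R722.LP

open MeasureTheory Pool.Agent.R514.SP
open scoped ENNReal NNReal

namespace TorAux

lemma meas_sub : Measurable fun q : TT × TT => q.2 - q.1 :=
  (continuous_snd.sub continuous_fst).measurable

lemma meas_K {A : Set TT} (hA : MeasurableSet A) : MeasurableSet {q : TT × TT | q.2 - q.1 ∈ A} :=
  meas_sub hA

/-- first shear -/
def g1 : TT ≃ᵐ TT where
  toFun w := (w.1 + w.2, w.2)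
  invFun w := (w.1 - w.2, w.2)
  left_inv w := by simp
  right_inv w := by simp
  measurable_toFun := (by fun_prop : Continuous fun w : TT => (w.1 + w.2, w.2)).measurable
  measurable_invFun := (by fun_prop : Continuous fun w : TT => (w.1 - w.2, w.2)).measurable

/-- second shear -/
def g2 : TT ≃ᵐ TT where
  toFun w := (w.1, w.1 + w.2)
  invFun w := (w.1, w.2 - w.1)
  left_inv w := by simp
  right_inv w := by simp
  measurable_toFun := (by fun_prop : Continuous fun w : TT => (w.1, w.1 + w.2)).measurable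
  measurable_invFun := (by fun_prop : Continuous fun w : TT => (w.1, w.2 - w.1)).measurable

lemma mp1 : MeasurePreserving g1 volume volume :=
  measurePreserving_add_prod (volume : Measure UnitAddCircle) (volume : Measure UnitAddCircle)

lemma mp2 : MeasurePreserving g2 volume volume :=
  measurePreserving_prod_add (volume : Measure UnitAddCircle) (volume : Measure UnitAddCircle)

lemma null_K {A : Set TT} (hA : MeasurableSet A) (h0 : (volume : Measure TT) A = 0) :
    (volume : Measure (TT × TT)) {q : TT × TT | q.2 - q.1 ∈ A} = 0 := by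
  haveI : (volume : Measure TT).IsAddLeftInvariant := inferInstanceAs
    ((volume : Measure UnitAddCircle).prod (volume : Measure UnitAddCircle)).IsAddLeftInvariant
  have h1 := measurePreserving_prod_neg_add (volume : Measure TT) (volume : Measure TT)
  have h2 : {q : TT × TT | q.2 - q.1 ∈ A} =
      (fun z : TT × TT => (z.1, -z.1 + z.2)) ⁻¹' (Set.univ ×ˢ A) := by
    ext q
    simp [sub_eq_neg_add]
  rw [h2, Measure.volume_eq_prod, h1.measure_preimage
    (MeasurableSet.univ.prod hA).nullMeasurableSet, Measure.prod_prod, h0, mul_zero]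

lemma loc_aux {M : Set (TT × TT) → ℝ} (hM : Good M) {ε : ℝ} (t : Finset TT) :
    ∀ K : Set (TT × TT), MeasurableSet K → (∀ q ∈ K, ε ≤ dist q.1 q.2) →
      (∀ q ∈ K, ∃ a ∈ t, q.1 ∈ Metric.ball a (ε / 2)) → M K = 0 := by
  classical
  induction t using Finset.induction_on with
  | empty =>
    intro K hK _ h2
    have : K = ∅ := by
      ext q
      constructor
      · intro hq
        obtain ⟨a, ha, _⟩ := h2 q hq
        simp at ha
      · intro h
        exact h.elim
    rw [this]
    exact hM.null ∅ MeasurableSet.empty measure_empty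
  | insert a s _ ih =>
    intro K hK h1 h2
    set C : Set TT := Metric.ball a (ε / 2) with hC
    have hCm : MeasurableSet C := measurableSet_ball
    have hP : MeasurableSet {q : TT × TT | q.1 ∈ C} := measurable_fst hCm
    have e : K = (K ∩ {q : TT × TT | q.1 ∈ C}) ∪ (K \ {q : TT × TT | q.1 ∈ C}) :=
      (Set.inter_union_sdiff K _).symm
    have hd : Disjoint (K ∩ {q : TT × TT | q.1 ∈ C}) (K \ {q : TT × TT | q.1 ∈ C}) :=
      Set.disjoint_sdiff_inter.symm
    rw [e, hM.add _ _ (hK.inter hP) (hK.diff hP) hd]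
    have e1 : M (K ∩ {q : TT × TT | q.1 ∈ C}) = 0 := by
      refine hM.loc C Cᶜ _ hCm hCm.compl (hK.inter hP) disjoint_compl_right ?_
      rintro q ⟨hq, hqC⟩
      refine ⟨hqC, ?_⟩
      intro hq2
      have h3 := h1 q hq
      have h4 : dist q.1 a < ε / 2 := hqC
      have h5 : dist q.2 a < ε / 2 := hq2
      have h6 := dist_triangle_right q.1 q.2 a
      linarith
    have e2 : M (K \ {q : TT × TT | q.1 ∈ C}) = 0 := by
      refine ih _ (hK.diff hP) (fun q hq => h1 q hq.1) ?_
      rintro q ⟨hq, hqC⟩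
      obtain ⟨b, hb, hb2⟩ := h2 q hq
      rcases Finset.mem_insert.1 hb with rfl | hb
      · exact absurd hb2 hqC
      · exact ⟨b, hb, hb2⟩
    rw [e1, e2, add_zero]

end TorAux

open TorAux in
theorem tor : S_TOR := by
  intro M hM
  refine ⟨?_, ?_, ?_, ?_, ?_, ?_⟩
  · intro A A' hA hA' hd
    have e : {q : TT × TT | q.2 - q.1 ∈ A ∪ A'} = {q : TT × TT | q.2 - q.1 ∈ A} ∪
        {q : TT × TT | q.2 - q.1 ∈ A'} := by
      ext q
      simp
    show M {q : TT × TT | q.2 - q.1 ∈ A ∪ A'} = _
    rw [e]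
    refine hM.add _ _ (meas_K hA) (meas_K hA') ?_
    rw [Set.disjoint_left]
    intro q hq hq'
    exact Set.disjoint_left.1 hd hq hq'
  · intro A hA h0
    exact hM.null _ (meas_K hA) (null_K hA h0)
  · have e : {q : TT × TT | q.2 - q.1 ∈ (Set.univ : Set TT)} = Set.univ := by
      ext q
      simp
    show M {q : TT × TT | q.2 - q.1 ∈ (Set.univ : Set TT)} = 1
    rw [e]
    exact hM.one
  · intro A hA
    have h := hM.inv g1 mp1 {q : TT × TT | q.2 - q.1 ∈ A} (meas_K hA)
    show M {q : TT × TT | q.2 - q.1 ∈ {w : TT | (w.1 + w.2, w.2) ∈ A}} = M _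
    rw [← h]
    congr 1
    ext q
    show ((q.2 - q.1).1 + (q.2 - q.1).2, (q.2 - q.1).2) ∈ A ↔
      ((q.2.1 + q.2.2, q.2.2) - (q.1.1 + q.1.2, q.1.2) : TT) ∈ A
    have e : (((q.2 - q.1).1 + (q.2 - q.1).2, (q.2 - q.1).2) : TT) =
        ((q.2.1 + q.2.2, q.2.2) - (q.1.1 + q.1.2, q.1.2) : TT) := by
      ext
      · simp; abel
      · simp
    rw [e]
  · intro A hA
    have h := hM.inv g2 mp2 {q : TT × TT | q.2 - q.1 ∈ A} (meas_K hA)
    show M {q : TT × TT | q.2 - q.1 ∈ {w : TT | (w.1, w.1 + w.2) ∈ A}} = M _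
    rw [← h]
    congr 1
    ext q
    show ((q.2 - q.1).1, (q.2 - q.1).1 + (q.2 - q.1).2) ∈ A ↔
      ((q.2.1, q.2.1 + q.2.2) - (q.1.1, q.1.1 + q.1.2) : TT) ∈ A
    have e : (((q.2 - q.1).1, (q.2 - q.1).1 + (q.2 - q.1).2) : TT) =
        ((q.2.1, q.2.1 + q.2.2) - (q.1.1, q.1.1 + q.1.2) : TT) := by
      ext
      · simp
      · simp; abel
    rw [e]
  · intro ε A hε hA hAε
    obtain ⟨t, -, ht, hcov⟩ := finite_cover_balls_of_compact (isCompact_univ (X := TT))
      (half_pos hε)
    refine loc_aux hM (ε := ε) ht.toFinset _ (meas_K hA) ?_ ?_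
    · intro q hq
      have h := hAε _ hq
      rw [dist_comm, dist_eq_norm, Prod.norm_def]
      exact h
    · intro q _
      have h := hcov (Set.mem_univ q.1)
      simp only [Set.mem_iUnion] at h
      obtain ⟨a, ha, hb⟩ := h
      exact ⟨a, ht.mem_toFinset.2 ha, hb⟩

end Pool.Agent.R722.LP
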